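import Pool.Agent.helper95.T5.SpecE

set_option autoImplicit false

namespace Pool.Agent.T5

open Finset NumberField Pool.Agent.helper3.FT Pool.Agent.helper47.RA

private theorem CZ_aux (κ a b c d l z n k m g : ℝ) (hκ : 0 < κ) (hκ1 : κ ≤ 1) (ha : 1 ≤ a) (hb : 1 ≤ b)
    (hc : 1 ≤ c) (_hd : 0 < d) (hl : 0 < l) (hz : 0 < z) (hn : 0 ≤ n) (hk : 0 ≤ k)
    (hdc : d ≤ c) (hcd : c ≤ 3 / 2 * d) (hza : z ≤ a) (haz : a ≤ 3 / 2 * z) (haz2 : a ^ 2 ≤ 2 * z ^ 2)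
    (hlb : l ≤ b) (hbl : κ * b ≤ l) (hbl2 : κ * b ^ 2 ≤ l ^ 2)
    (h1 : n * d ≤ 2 * z ^ 2 * l) (h2 : k * d ≤ 2 * z * l ^ 2) (h3 : 2 * κ * z ^ 2 * l ≤ n * d)
    (h4 : 2 * κ * z * l ^ 2 ≤ k * d) (h5 : |m| ≤ z * n + z ^ 2 / l * k) (h6 : |g| ≤ l ^ 2 / z * n + l * k) :
    κ ^ 2 * (a ^ 2 * b / c) ≤ n ∧ n ≤ 3 * (a ^ 2 * b / c) ∧ κ ^ 2 * (a * b ^ 2 / c) ≤ k ∧
      k ≤ 3 * (a * b ^ 2 / c) ∧ |m| ≤ 6 / κ * (a ^ 2 * a * b / c) ∧ |g| ≤ 8 * (a * b ^ 2 * b / c) := by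
  have hc0 : 0 < c := by linarith
  have hb0 : 0 < b := by linarith
  have ha0 : 0 < a := by linarith
  have hz2 : z ^ 2 ≤ a ^ 2 := pow_le_pow_left₀ hz.le hza 2
  have hl2 : l ^ 2 ≤ b ^ 2 := pow_le_pow_left₀ hl.le hlb 2
  have en : n * c ≤ 3 * (a ^ 2 * b) := by
    calc n * c ≤ n * (3 / 2 * d) := mul_le_mul_of_nonneg_left hcd hn
      _ = 3 / 2 * (n * d) := by ring
      _ ≤ 3 / 2 * (2 * z ^ 2 * l) := by linarith
      _ = 3 * (z ^ 2 * l) := by ring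
      _ ≤ 3 * (a ^ 2 * b) := by
          have : z ^ 2 * l ≤ a ^ 2 * b := mul_le_mul hz2 hlb hl.le (by positivity)
          linarith
  have ek : k * c ≤ 3 * (a * b ^ 2) := by
    calc k * c ≤ k * (3 / 2 * d) := mul_le_mul_of_nonneg_left hcd hk
      _ = 3 / 2 * (k * d) := by ring
      _ ≤ 3 / 2 * (2 * z * l ^ 2) := by linarith
      _ = 3 * (z * l ^ 2) := by ring
      _ ≤ 3 * (a * b ^ 2) := by
          have : z * l ^ 2 ≤ a * b ^ 2 := mul_le_mul hza hl2 (by positivity) (by positivity)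
          linarith
  have en' : n ≤ 3 * (a ^ 2 * b / c) := by
    rw [show 3 * (a ^ 2 * b / c) = 3 * (a ^ 2 * b) / c by ring, le_div_iff₀ hc0]
    exact en
  have ek' : k ≤ 3 * (a * b ^ 2 / c) := by
    rw [show 3 * (a * b ^ 2 / c) = 3 * (a * b ^ 2) / c by ring, le_div_iff₀ hc0]
    exact ek
  refine ⟨?_, en', ?_, ek', ?_, ?_⟩
  · rw [show κ ^ 2 * (a ^ 2 * b / c) = κ ^ 2 * (a ^ 2 * b) / c by ring, div_le_iff₀ hc0]
    calc κ ^ 2 * (a ^ 2 * b) = κ * a ^ 2 * (κ * b) := by ring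
      _ ≤ κ * (2 * z ^ 2) * l := by
          apply mul_le_mul _ hbl (by positivity) (by positivity)
          exact mul_le_mul_of_nonneg_left haz2 hκ.le
      _ = 2 * κ * z ^ 2 * l := by ring
      _ ≤ n * d := h3
      _ ≤ n * c := mul_le_mul_of_nonneg_left hdc hn
  · rw [show κ ^ 2 * (a * b ^ 2 / c) = κ ^ 2 * (a * b ^ 2) / c by ring, div_le_iff₀ hc0]
    calc κ ^ 2 * (a * b ^ 2) = κ * a * (κ * b ^ 2) := by ring
      _ ≤ κ * (2 * z) * l ^ 2 := by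
          apply mul_le_mul _ hbl2 (by positivity) (by positivity)
          apply mul_le_mul_of_nonneg_left _ hκ.le
          linarith
      _ = 2 * κ * z * l ^ 2 := by ring
      _ ≤ k * d := h4
      _ ≤ k * c := mul_le_mul_of_nonneg_left hdc hk
  · have e1 : z * n ≤ a * (3 * (a ^ 2 * b / c)) := mul_le_mul hza en' hn ha0.le
    have e2 : z ^ 2 / l * k ≤ a ^ 2 / (κ * b) * (3 * (a * b ^ 2 / c)) := by
      apply mul_le_mul _ ek' hk (by positivity)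
      exact div_le_div₀ (by positivity) hz2 (by positivity) hbl
    have e3 : a ^ 2 / (κ * b) * (3 * (a * b ^ 2 / c)) = 3 / κ * (a ^ 2 * a * b / c) := by
      field_simp
    have e4 : a * (3 * (a ^ 2 * b / c)) = 3 * (a ^ 2 * a * b / c) := by ring
    have e5 : (3 : ℝ) ≤ 3 / κ := by
      rw [le_div_iff₀ hκ]
      nlinarith
    have e6 : 0 ≤ a ^ 2 * a * b / c := by positivity
    have e7 := mul_le_mul_of_nonneg_right e5 e6
    have e8 : 6 / κ * (a ^ 2 * a * b / c) = 3 / κ * (a ^ 2 * a * b / c) + 3 / κ * (a ^ 2 * a * b / c) := by ring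
    rw [e8]
    linarith
  · have e1 : l ^ 2 / z ≤ 3 / 2 * (b ^ 2 / a) := by
      rw [show 3 / 2 * (b ^ 2 / a) = b ^ 2 / (2 / 3 * a) by field_simp]
      apply div_le_div₀ (by positivity) hl2 (by positivity)
      linarith
    have e2 : l ^ 2 / z * n ≤ 3 / 2 * (b ^ 2 / a) * (3 * (a ^ 2 * b / c)) :=
      mul_le_mul e1 en' hn (by positivity)
    have e3 : 3 / 2 * (b ^ 2 / a) * (3 * (a ^ 2 * b / c)) = 9 / 2 * (a * b ^ 2 * b / c) := by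
      field_simp
      ring
    have e4 : l * k ≤ b * (3 * (a * b ^ 2 / c)) := mul_le_mul hlb ek' hk hb0.le
    have e5 : b * (3 * (a * b ^ 2 / c)) = 3 * (a * b ^ 2 * b / c) := by ring
    have e6 : 0 ≤ a * b ^ 2 * b / c := by positivity
    linarith

theorem CZ (hSZ : SZ_stmt) : CZ_stmt := by
  intro κ N Y Y₂ t hκ hκ1 hN hY hY₂ hC
  obtain ⟨tt, z1, z2, d1, d2, l1, l2, s1, s2⟩ := hC
  have hZ0 : (0 : ℝ) < t.2.2.2 := by linarith
  have hL0 : (0 : ℝ) < lam t := by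
    have : 0 < κ * Y₂ := by positivity
    linarith
  have hD0 : (0 : ℝ) < -(dis t : ℝ) := by linarith
  have hZi : 0 < t.2.2.2 := by exact_mod_cast hZ0
  have hLi : 0 < lam t := by exact_mod_cast hL0
  have hDi : dis t < 0 := by
    have : (dis t : ℝ) < 0 := by linarith
    exact_mod_cast this
  obtain ⟨q1, q2, q3, q4⟩ := hSZ t tt hZi hLi hDi
  have e1 : √Y ^ 2 = Y := Real.sq_sqrt (by linarith)
  have e2 : √Y₂ ^ 2 = Y₂ := Real.sq_sqrt (by linarith)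
  have e3 : √N ^ 2 = N := Real.sq_sqrt (by linarith)
  have e4 : √(-(dis t : ℝ)) ^ 2 = -(dis t : ℝ) := Real.sq_sqrt hD0.le
  have e5 : √(lam t : ℝ) ^ 2 = lam t := Real.sq_sqrt hL0.le
  have e6 : √(t.2.2.2 : ℝ) ^ 2 = t.2.2.2 := Real.sq_sqrt hZ0.le
  have p1 : 1 ≤ √Y := Real.one_le_sqrt.mpr hY
  have p2 : 1 ≤ √Y₂ := Real.one_le_sqrt.mpr hY₂
  have p3 : 1 ≤ √N := Real.one_le_sqrt.mpr hN
  have p4 : 0 < √(-(dis t : ℝ)) := Real.sqrt_pos.mpr hD0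
  have p5 : 0 < √(lam t : ℝ) := Real.sqrt_pos.mpr hL0
  have p6 : 0 < √(t.2.2.2 : ℝ) := Real.sqrt_pos.mpr hZ0
  have r1 : √(-(dis t : ℝ)) ≤ √N := Real.sqrt_le_sqrt d2
  have r2 : √(t.2.2.2 : ℝ) ≤ √Y := Real.sqrt_le_sqrt z2
  have r3 : (lam t : ℝ) ≤ Y₂ := by
    have h1 : (lam t : ℝ) * √N ≤ Y₂ * √N := l2.trans (mul_le_mul_of_nonneg_left r1 (by linarith))
    exact le_of_mul_le_mul_right h1 (by linarith)
  have r4 : √(lam t : ℝ) ≤ √Y₂ := Real.sqrt_le_sqrt r3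
  have r5 : √N ≤ 3 / 2 * √(-(dis t : ℝ)) := by
    apply Real.sqrt_le_iff.mpr
    refine ⟨by positivity, ?_⟩
    rw [mul_pow, e4]
    linarith
  have r6 : √Y ≤ 3 / 2 * √(t.2.2.2 : ℝ) := by
    apply Real.sqrt_le_iff.mpr
    refine ⟨by positivity, ?_⟩
    rw [mul_pow, e6]
    linarith
  have r7 : κ * √Y₂ ≤ √(lam t : ℝ) := by
    apply Real.le_sqrt_of_sq_le
    rw [mul_pow, e2]
    have : κ ^ 2 * Y₂ ≤ κ * Y₂ := by
      apply mul_le_mul_of_nonneg_right _ (by linarith)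
      nlinarith
    linarith
  have key := CZ_aux κ √Y √Y₂ √N √(-(dis t : ℝ)) √(lam t : ℝ) √(t.2.2.2 : ℝ) t.1.1 t.1.2 t.2.1 t.2.2.1
    hκ hκ1 p1 p2 p3 p4 p5 p6 (Nat.cast_nonneg _) (Nat.cast_nonneg _) r1 r5 r2 r6
    (by rw [e1, e6]; linarith) r4 r7 (by rw [e2, e5]; exact l1)
    (by rw [e6]; exact q1) (by rw [e5]; exact q2) (by rw [e6]; exact s1) (by rw [e5]; exact s2)
    (by rw [e6]; exact q3) (by rw [e5]; exact q4)
  rw [e1, e2] at key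
  obtain ⟨k1, k2, k3, k4, k5, k6⟩ := key
  refine ⟨?_, ?_, ?_, ?_, ?_, ?_, hZi, hLi, hDi⟩
  · exact k1
  · exact k2
  · exact k3
  · exact k4
  · exact k5
  · exact k6

end Pool.Agent.T5
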