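import Pool.Agent.helper95.T5.SpecE

set_option autoImplicit false

namespace Pool.Agent.T5

open Finset NumberField Pool.Agent.helper3.FT Pool.Agent.helper47.RA

private lemma AKR_e_add (x y : ℝ) : e (x + y) = e x * e y := by
  unfold e
  rw [← Complex.exp_add]; congr 1; push_cast; ring

private lemma AKR_e_conj (x : ℝ) : (starRingEnd ℂ) (e x) = e (-x) := by
  unfold e
  rw [← Complex.exp_conj]
  congr 1
  simp only [map_mul, Complex.conj_ofReal, Complex.conj_I, map_ofNat]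
  push_cast; ring

private lemma AKR_e_int (n : ℤ) : e n = 1 := by
  unfold e
  have := Complex.exp_int_mul_two_pi_mul_I n
  rw [← this]; congr 1; push_cast; ring

private lemma AKR_e_zero : e 0 = 1 := by
  have := AKR_e_int 0
  simpa using this

private lemma AKR_norm_e (x : ℝ) : ‖e x‖ = 1 := by
  unfold e
  rw [show (2 * Real.pi * Complex.I * x : ℂ) = ((2 * Real.pi * x : ℝ) : ℂ) * Complex.I by
    push_cast; ring]
  exact Complex.norm_exp_ofReal_mul_I _

private lemma AKR_cont_e : Continuous (fun x : ℝ => e x) := by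
  unfold e
  fun_prop

private lemma AKR_int (n : ℤ) : ∫ z in (0 : ℝ)..1, e (n * z) = if n = 0 then 1 else 0 := by
  split_ifs with h
  · subst h
    simp [AKR_e_zero]
  · have h1 : ∀ z : ℝ, e (n * z) = Complex.exp ((2 * Real.pi * Complex.I * n) * z) := by
      intro z
      unfold e
      congr 1
      push_cast
      ring
    simp only [h1]
    have hc : (2 * Real.pi * Complex.I * n : ℂ) ≠ 0 := by
      have h2 : (n : ℂ) ≠ 0 := by exact_mod_cast h
      have h3 : (Real.pi : ℂ) ≠ 0 := by exact_mod_cast Real.pi_ne_zero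
      simp [h2, Complex.I_ne_zero]
    rw [integral_exp_mul_complex hc]
    have h2 : Complex.exp (2 * Real.pi * Complex.I * n * ((1 : ℝ) : ℂ)) = 1 := by
      have := Complex.exp_int_mul_two_pi_mul_I n
      rw [← this]; congr 1; push_cast; ring
    rw [h2]
    simp

/-- geometric sum -/
private noncomputable def AKR_D (H : ℕ) (z : ℝ) : ℂ := ∑ j ∈ range H, e (j * z)

private def AKR_s (x : (ℕ × ℕ) × (ℕ × ℕ)) : ℤ := ((x.1.1 : ℤ) - x.1.2) + ((x.2.1 : ℤ) - x.2.2)

private def AKR_Q (H : ℕ) : Finset ((ℕ × ℕ) × (ℕ × ℕ)) := (range H ×ˢ range H) ×ˢ (range H ×ˢ range H)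

private def AKR_N (H : ℕ) (h : ℤ) : ℕ := ((AKR_Q H).filter (fun x => AKR_s x = h)).card

private lemma AKR_sq (H : ℕ) (z : ℝ) :
    ((‖AKR_D H z‖ ^ 2 : ℝ) : ℂ) = ∑ p ∈ range H ×ˢ range H, e (((p.1 : ℤ) - p.2 : ℤ) * z) := by
  rw [Complex.ofReal_pow, ← Complex.mul_conj']
  unfold AKR_D
  rw [map_sum, Finset.sum_mul_sum, Finset.sum_product]
  refine Finset.sum_congr rfl (fun a _ => Finset.sum_congr rfl (fun b _ => ?_))
  rw [AKR_e_conj, ← AKR_e_add]
  congr 1; push_cast; ring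

private lemma AKR_four (H : ℕ) (z : ℝ) :
    ((‖AKR_D H z‖ ^ 4 : ℝ) : ℂ) = ∑ x ∈ AKR_Q H, e ((AKR_s x : ℤ) * z) := by
  have h1 : ((‖AKR_D H z‖ ^ 4 : ℝ) : ℂ) = ((‖AKR_D H z‖ ^ 2 : ℝ) : ℂ) * ((‖AKR_D H z‖ ^ 2 : ℝ) : ℂ) := by
    push_cast; ring
  rw [h1, AKR_sq, Finset.sum_mul_sum]
  unfold AKR_Q
  rw [Finset.sum_product (range H ×ˢ range H) (range H ×ˢ range H)]
  refine Finset.sum_congr rfl (fun a _ => Finset.sum_congr rfl (fun b _ => ?_))
  rw [← AKR_e_add]
  congr 1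
  unfold AKR_s
  push_cast; ring

private lemma AKR_fib (H : ℕ) (g : ℤ → ℂ) : ∑ x ∈ AKR_Q H, g (AKR_s x) =
    ∑ h ∈ Ioo (-(2 * H : ℤ)) (2 * H), (AKR_N H h : ℂ) * g h := by
  have hm : ∀ x ∈ AKR_Q H, AKR_s x ∈ Ioo (-(2 * H : ℤ)) (2 * H) := by
    intro x hx
    unfold AKR_Q at hx
    simp only [Finset.mem_product, Finset.mem_range] at hx
    obtain ⟨⟨h1, h2⟩, ⟨h3, h4⟩⟩ := hx
    rw [Finset.mem_Ioo]
    unfold AKR_s
    constructor <;> omega
  rw [← Finset.sum_fiberwise_of_maps_to hm (fun x => g (AKR_s x))]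
  refine Finset.sum_congr rfl (fun h _ => ?_)
  have h1 : ∑ x ∈ (AKR_Q H).filter (fun x => AKR_s x = h), g (AKR_s x) =
      ∑ x ∈ (AKR_Q H).filter (fun x => AKR_s x = h), g h := by
    refine Finset.sum_congr rfl (fun x hx => ?_)
    rw [(Finset.mem_filter.mp hx).2]
  rw [h1, Finset.sum_const, nsmul_eq_mul]
  rfl

private lemma AKR_contD (H : ℕ) : Continuous (AKR_D H) := by
  unfold AKR_D
  refine continuous_finsetSum _ (fun j _ => ?_)
  exact AKR_cont_e.comp (by fun_prop)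

private lemma AKR_Nint (H : ℕ) (h : ℤ) :
    ∫ z in (0 : ℝ)..1, ((‖AKR_D H z‖ ^ 4 : ℝ) : ℂ) * e (-(h * z)) = AKR_N H h := by
  have h1 : ∀ z : ℝ, ((‖AKR_D H z‖ ^ 4 : ℝ) : ℂ) * e (-(h * z)) =
      ∑ x ∈ AKR_Q H, e (((AKR_s x - h : ℤ) : ℝ) * z) := by
    intro z
    rw [AKR_four, Finset.sum_mul]
    refine Finset.sum_congr rfl (fun x _ => ?_)
    rw [← AKR_e_add]
    congr 1
    push_cast; ring
  simp only [h1]
  rw [intervalIntegral.integral_finsetSum]
  · simp only [AKR_int]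
    unfold AKR_N
    rw [Finset.card_filter]
    push_cast
    refine Finset.sum_congr rfl (fun x _ => ?_)
    simp only [sub_eq_zero]
  · intro x _
    apply Continuous.intervalIntegrable
    exact AKR_cont_e.comp (by fun_prop)

private lemma AKR_N0int (H : ℕ) : ∫ z in (0 : ℝ)..1, ‖AKR_D H z‖ ^ 4 = AKR_N H 0 := by
  have h := AKR_Nint H 0
  have h1 : ∀ z : ℝ, ((‖AKR_D H z‖ ^ 4 : ℝ) : ℂ) * e (-(((0 : ℤ) : ℝ) * z)) = ((‖AKR_D H z‖ ^ 4 : ℝ) : ℂ) := by
    intro z
    simp [AKR_e_zero]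
  simp only [h1] at h
  rw [intervalIntegral.integral_ofReal] at h
  exact_mod_cast h

private lemma AKR_Nle (H : ℕ) (h : ℤ) : (AKR_N H h : ℝ) ≤ AKR_N H 0 := by
  have h1 : (AKR_N H h : ℝ) = ‖∫ z in (0 : ℝ)..1, ((‖AKR_D H z‖ ^ 4 : ℝ) : ℂ) * e (-(h * z))‖ := by
    rw [AKR_Nint]
    simp
  rw [h1, ← AKR_N0int]
  calc ‖∫ z in (0 : ℝ)..1, ((‖AKR_D H z‖ ^ 4 : ℝ) : ℂ) * e (-(h * z))‖
      ≤ ∫ z in (0 : ℝ)..1, ‖((‖AKR_D H z‖ ^ 4 : ℝ) : ℂ) * e (-(h * z))‖ :=
        intervalIntegral.norm_integral_le_integral_norm (by norm_num)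
    _ = ∫ z in (0 : ℝ)..1, ‖AKR_D H z‖ ^ 4 := by
        refine intervalIntegral.integral_congr (fun z _ => ?_)
        simp only [norm_mul, AKR_norm_e, mul_one]
        rw [Complex.norm_real, Real.norm_of_nonneg (by positivity)]

private lemma AKR_absum (n : ℕ) : ∑ j ∈ range n, ∑ k ∈ range n, |(j : ℝ) - k| = ((n : ℝ) ^ 3 - n) / 3 := by
  have hlin : ∀ n : ℕ, ∑ k ∈ range n, ((n : ℝ) - k) = n * (n + 1) / 2 := by
    intro n
    induction n with
    | zero => simp
    | succ n ih =>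
      rw [Finset.sum_range_succ]
      have h1 : ∑ k ∈ range n, (((n + 1 : ℕ) : ℝ) - k) = ∑ k ∈ range n, (((n : ℝ) - k) + 1) := by
        refine Finset.sum_congr rfl (fun k _ => ?_)
        push_cast; ring
      rw [h1, Finset.sum_add_distrib, ih]
      simp
      ring
  induction n with
  | zero => simp
  | succ n ih =>
    rw [Finset.sum_range_succ]
    have h1 : ∀ j ∈ range n, ∑ k ∈ range (n + 1), |(j : ℝ) - k| = ∑ k ∈ range n, |(j : ℝ) - k| + ((n : ℝ) - j) := by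
      intro j hj
      rw [Finset.sum_range_succ]
      have : (j : ℝ) ≤ n := by exact_mod_cast (Finset.mem_range.mp hj).le
      rw [abs_sub_comm (j : ℝ) (n : ℝ), abs_of_nonneg (by linarith)]
    rw [Finset.sum_congr rfl h1, Finset.sum_add_distrib, ih, hlin, Finset.sum_range_succ]
    have h2 : ∑ k ∈ range n, |(n : ℝ) - k| = ∑ k ∈ range n, ((n : ℝ) - k) := by
      refine Finset.sum_congr rfl (fun k hk => ?_)
      have : (k : ℝ) ≤ n := by exact_mod_cast (Finset.mem_range.mp hk).le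
      rw [abs_of_nonneg (by linarith)]
    rw [h2, hlin]
    simp
    ring

private lemma AKR_row (H j k : ℕ) (hj : j < H) (hk : k < H) :
    (H : ℝ) - |(j : ℝ) - k| ≤
      (((range H ×ˢ range H).filter (fun q => AKR_s ((j, k), q) = 0)).card : ℝ) := by
  have hcard : (range (H - (j - k) - (k - j))).card ≤
      ((range H ×ˢ range H).filter (fun q => AKR_s ((j, k), q) = 0)).card := by
    apply Finset.card_le_card_of_injOn (fun i => (i + (k - j), i + (j - k)))
    · intro i hi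
      simp only [Finset.coe_range, Set.mem_Iio] at hi
      simp only [Finset.coe_filter, Finset.mem_product, Finset.mem_range, Set.mem_ofPred_eq, AKR_s]
      omega
    · intro a _ b _ hab
      simp only [Prod.mk.injEq] at hab
      omega
  rw [Finset.card_range] at hcard
  have h1 : (((H - (j - k) - (k - j) : ℕ)) : ℝ) ≤
      (((range H ×ˢ range H).filter (fun q => AKR_s ((j, k), q) = 0)).card : ℝ) := by exact_mod_cast hcard
  refine le_trans (le_of_eq ?_) h1
  rcases le_total j k with h | h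
  · have e1 : j - k = 0 := Nat.sub_eq_zero_of_le h
    rw [e1, Nat.sub_zero, Nat.cast_sub (by omega), Nat.cast_sub h]
    have : (j : ℝ) ≤ k := by exact_mod_cast h
    rw [abs_of_nonpos (by linarith)]
    ring
  · have e1 : k - j = 0 := Nat.sub_eq_zero_of_le h
    rw [e1, Nat.sub_zero, Nat.cast_sub (by omega), Nat.cast_sub h]
    have : (k : ℝ) ≤ j := by exact_mod_cast h
    rw [abs_of_nonneg (by linarith)]

private lemma AKR_N0 (H : ℕ) : 2 * (H : ℝ) ^ 3 / 3 ≤ AKR_N H 0 := by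
  have h1 : (AKR_N H 0 : ℝ) = ∑ p ∈ range H ×ˢ range H,
      (((range H ×ˢ range H).filter (fun q => AKR_s (p, q) = 0)).card : ℝ) := by
    unfold AKR_N AKR_Q
    rw [Finset.card_filter, Finset.sum_product]
    push_cast
    refine Finset.sum_congr rfl (fun p _ => ?_)
    rw [Finset.card_filter]
    push_cast
    rfl
  rw [h1]
  have h2 : ∑ p ∈ range H ×ˢ range H, ((H : ℝ) - |(p.1 : ℝ) - p.2|) ≤ ∑ p ∈ range H ×ˢ range H,
      (((range H ×ˢ range H).filter (fun q => AKR_s (p, q) = 0)).card : ℝ) := by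
    refine Finset.sum_le_sum (fun p hp => ?_)
    simp only [Finset.mem_product, Finset.mem_range] at hp
    exact AKR_row H p.1 p.2 hp.1 hp.2
  refine le_trans ?_ h2
  rw [Finset.sum_sub_distrib, Finset.sum_const, Finset.card_product, Finset.card_range, Finset.sum_product,
    AKR_absum]
  simp only [nsmul_eq_mul]
  push_cast
  have : (0 : ℝ) ≤ H := Nat.cast_nonneg _
  nlinarith

private noncomputable def AKR_K (H : ℕ) (z : ℝ) : ℝ := ‖AKR_D H z‖ ^ 4 / AKR_N H 0

private lemma AKR_N0pos (H : ℕ) (hH : 1 ≤ H) : (0 : ℝ) < AKR_N H 0 := by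
  have h1 := AKR_N0 H
  have h2 : (0 : ℝ) < H := by exact_mod_cast hH
  have h3 : 0 < 2 * (H : ℝ) ^ 3 / 3 := by positivity
  linarith

private lemma AKR_K0 (H : ℕ) (z : ℝ) : 0 ≤ AKR_K H z := by
  unfold AKR_K
  positivity

private lemma AKR_contK (H : ℕ) : Continuous (AKR_K H) := by
  unfold AKR_K
  exact ((AKR_contD H).norm.pow 4).div_const _

private lemma AKR_per (H : ℕ) : Function.Periodic (AKR_K H) 1 := by
  intro z
  have h : AKR_D H (z + 1) = AKR_D H z := by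
    unfold AKR_D
    refine Finset.sum_congr rfl (fun j _ => ?_)
    rw [mul_add, AKR_e_add, mul_one]
    have := AKR_e_int (j : ℤ)
    push_cast at this
    rw [this, mul_one]
  unfold AKR_K
  rw [h]

private lemma AKR_even (H : ℕ) (z : ℝ) : AKR_K H (-z) = AKR_K H z := by
  have h : AKR_D H (-z) = (starRingEnd ℂ) (AKR_D H z) := by
    unfold AKR_D
    rw [map_sum]
    refine Finset.sum_congr rfl (fun j _ => ?_)
    rw [AKR_e_conj, mul_neg]
  unfold AKR_K
  rw [h, Complex.norm_conj]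

private lemma AKR_one (H : ℕ) (hH : 1 ≤ H) (s : ℝ) : ∫ z in s..s + 1, AKR_K H z = 1 := by
  rw [(AKR_per H).intervalIntegral_add_eq s 0, zero_add]
  unfold AKR_K
  rw [intervalIntegral.integral_div, AKR_N0int]
  exact div_self (AKR_N0pos H hH).ne'

private lemma AKR_geo (H : ℕ) (z : ℝ) (hz : 0 < z) (hz1 : z ≤ 1 / 2) : ‖AKR_D H z‖ ≤ 1 / (2 * z) := by
  have h1 : AKR_D H z * (e z - 1) = e (H * z) - 1 := by
    have h2 : ∀ j : ℕ, e (j * z) = e z ^ j := by
      intro j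
      unfold e
      rw [← Complex.exp_nat_mul]
      congr 1
      push_cast
      ring
    unfold AKR_D
    rw [Finset.sum_congr rfl (fun j _ => h2 j), geom_sum_mul, ← h2]
  have h2 : ‖AKR_D H z‖ * ‖e z - 1‖ ≤ 2 := by
    rw [← norm_mul, h1]
    calc ‖e (H * z) - 1‖ ≤ ‖e (H * z)‖ + ‖(1 : ℂ)‖ := norm_sub_le _ _
      _ = 2 := by rw [AKR_norm_e, norm_one]; norm_num
  have h3 : 4 * z ≤ ‖e z - 1‖ := by
    have h4 : e z = Complex.exp (Complex.I * ((2 * Real.pi * z : ℝ) : ℂ)) := by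
      unfold e
      congr 1
      push_cast
      ring
    rw [h4, Complex.norm_exp_I_mul_ofReal_sub_one]
    have h5 : 2 * Real.pi * z / 2 = Real.pi * z := by ring
    rw [h5]
    have h6 : 2 / Real.pi * (Real.pi * z) ≤ Real.sin (Real.pi * z) :=
      Real.mul_le_sin (by positivity) (by nlinarith [Real.pi_pos])
    have h7 : 2 / Real.pi * (Real.pi * z) = 2 * z := by
      have := Real.pi_ne_zero
      field_simp
    rw [h7] at h6
    rw [Real.norm_of_nonneg (by linarith)]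
    linarith
  rw [le_div_iff₀ (by positivity)]
  have h4 : ‖AKR_D H z‖ * (4 * z) ≤ 2 := (mul_le_mul_of_nonneg_left h3 (norm_nonneg _)).trans h2
  linarith

private lemma AKR_Kle (H : ℕ) (hH : 1 ≤ H) (z : ℝ) (hz : 0 < z) (hz1 : z ≤ 1 / 2) :
    AKR_K H z ≤ 3 / (32 * (H : ℝ) ^ 3) * z ^ (-4 : ℤ) := by
  have hH0 : (0 : ℝ) < H := by exact_mod_cast hH
  have h1 := AKR_geo H z hz hz1
  have h2 : ‖AKR_D H z‖ ^ 4 ≤ (1 / (2 * z)) ^ 4 := pow_le_pow_left₀ (norm_nonneg _) h1 4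
  unfold AKR_K
  calc ‖AKR_D H z‖ ^ 4 / AKR_N H 0 ≤ (1 / (2 * z)) ^ 4 / (2 * (H : ℝ) ^ 3 / 3) :=
        div_le_div₀ (by positivity) h2 (by positivity) (AKR_N0 H)
    _ = 3 / (32 * (H : ℝ) ^ 3) * z ^ (-4 : ℤ) := by
        rw [zpow_neg, zpow_ofNat]
        field_simp
        norm_num

private lemma AKR_half (H : ℕ) (hH : 1 ≤ H) (t : ℝ) (ht : 0 < t) (ht1 : t ≤ 1 / 2) :
    ∫ z in t..(1 / 2), AKR_K H z ≤ 1 / (32 * (H : ℝ) ^ 3 * t ^ 3) := by
  have hH0 : (0 : ℝ) < H := by exact_mod_cast hH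
  have h0 : (0 : ℝ) ∉ Set.uIcc t (1 / 2) := by
    rw [Set.uIcc_of_le ht1]
    intro h
    linarith [h.1]
  have hint : IntervalIntegrable (fun z : ℝ => 3 / (32 * (H : ℝ) ^ 3) * z ^ (-4 : ℤ)) MeasureTheory.volume t (1 / 2) := by
    apply IntervalIntegrable.const_mul
    apply intervalIntegral.intervalIntegrable_zpow
    right
    exact h0
  calc ∫ z in t..(1 / 2), AKR_K H z ≤ ∫ z in t..(1 / 2), 3 / (32 * (H : ℝ) ^ 3) * z ^ (-4 : ℤ) := by
        apply intervalIntegral.integral_mono_on ht1 ((AKR_contK H).intervalIntegrable _ _) hint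
        intro z hz
        exact AKR_Kle H hH z (by linarith [hz.1]) hz.2
    _ = 3 / (32 * (H : ℝ) ^ 3) * (((1 / 2) ^ (-4 + 1 : ℤ) - t ^ (-4 + 1 : ℤ)) / ((-4 : ℤ) + 1)) := by
        rw [intervalIntegral.integral_const_mul, integral_zpow]
        right
        exact ⟨by norm_num, h0⟩
    _ ≤ 1 / (32 * (H : ℝ) ^ 3 * t ^ 3) := by
        have e1 : t ^ (-4 + 1 : ℤ) = 1 / t ^ 3 := by
          rw [show (-4 + 1 : ℤ) = -3 by norm_num, zpow_neg, zpow_ofNat]
          simp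
        rw [e1]
        have e2 : ((1 / 2 : ℝ)) ^ (-4 + 1 : ℤ) = 8 := by
          rw [show (-4 + 1 : ℤ) = -3 by norm_num, zpow_neg, zpow_ofNat]
          norm_num
        rw [e2]
        have e3 : 3 / (32 * (H : ℝ) ^ 3) * ((8 - 1 / t ^ 3) / (((-4 : ℤ) : ℝ) + 1)) =
            1 / (32 * (H : ℝ) ^ 3 * t ^ 3) - 8 / (32 * (H : ℝ) ^ 3) := by
          push_cast
          field_simp
          ring
        rw [e3]
        have : 0 < 8 / (32 * (H : ℝ) ^ 3) := by positivity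
        linarith

private lemma AKR_tail (H : ℕ) (hH : 1 ≤ H) (t : ℝ) (ht : 0 < t) (ht1 : t ≤ 1 / 2) :
    ∫ z in t..(1 - t), AKR_K H z ≤ 1 / (16 * (H : ℝ) ^ 3 * t ^ 3) := by
  have h1 : ∫ z in t..(1 - t), AKR_K H z = (∫ z in t..(1 / 2), AKR_K H z) + ∫ z in (1 / 2)..(1 - t), AKR_K H z :=
    (intervalIntegral.integral_add_adjacent_intervals ((AKR_contK H).intervalIntegrable _ _)
      ((AKR_contK H).intervalIntegrable _ _)).symm
  have h2 : ∫ z in (1 / 2)..(1 - t), AKR_K H z = ∫ z in t..(1 / 2), AKR_K H z := by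
    have h3 : ∫ z in t..(1 / 2), AKR_K H (1 - z) = ∫ z in (1 - 1 / 2)..(1 - t), AKR_K H z :=
      intervalIntegral.integral_comp_sub_left (fun z => AKR_K H z) 1
    have h4 : ∀ z : ℝ, AKR_K H (1 - z) = AKR_K H z := by
      intro z
      rw [show 1 - z = -z + 1 by ring, AKR_per H (-z), AKR_even]
    simp only [h4] at h3
    rw [h3]
    norm_num
  have hH0 : (0 : ℝ) < H := by exact_mod_cast hH
  have h3 := AKR_half H hH t ht ht1
  have h4 : 1 / (16 * (H : ℝ) ^ 3 * t ^ 3) = 1 / (32 * (H : ℝ) ^ 3 * t ^ 3) + 1 / (32 * (H : ℝ) ^ 3 * t ^ 3) := by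
    field_simp
    norm_num
  rw [h1, h2, h4]
  linarith

private lemma AKR_shift (H : ℕ) (z : ℤ) (a b : ℝ) : ∫ y in a..b, AKR_K H y = ∫ y in (a - z)..(b - z), AKR_K H y := by
  have h3 : ∫ y in a..b, AKR_K H (y - z) = ∫ y in (a - z)..(b - z), AKR_K H y :=
    intervalIntegral.integral_comp_sub_right (fun y => AKR_K H y) (z : ℝ)
  rw [← h3]
  refine intervalIntegral.integral_congr (fun y _ => ?_)
  have h4 := (AKR_per H).sub_zsmul_eq (x := y) z
  simp only [zsmul_eq_mul, mul_one] at h4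
  exact h4.symm

private lemma AKR_mono (H : ℕ) (a b c d : ℝ) (h1 : a ≤ b) (h2 : b ≤ c) (h3 : c ≤ d) :
    ∫ y in b..c, AKR_K H y ≤ ∫ y in a..d, AKR_K H y := by
  apply intervalIntegral.integral_mono_interval h1 h2 h3
  · exact Filter.Eventually.of_forall (fun y => AKR_K0 H y)
  · exact (AKR_contK H).intervalIntegrable _ _

theorem AKR : AKR_stmt := by
  intro H u v hH huv hv
  have hH0 : (0 : ℝ) < H := by exact_mod_cast hH
  have hN0 := AKR_N0pos H hH
  have hf : ∀ x : ℝ, ∫ y in u..v, AKR_K H (x - y) = ∫ s in (x - v)..(x - u), AKR_K H s := by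
    intro x
    exact intervalIntegral.integral_comp_sub_left (fun z => AKR_K H z) x
  refine ⟨fun h => ((AKR_N H h : ℝ) / AKR_N H 0 : ℝ) * ∫ y in u..v, e (-(h * y)),
    fun x => ∫ y in u..v, AKR_K H (x - y), ?_, ?_, ?_, ?_, ?_, ?_⟩
  · intro x
    have h1 : ∀ y : ℝ, ((AKR_K H (x - y) : ℝ) : ℂ) = ∑ h ∈ Ioo (-(2 * H : ℤ)) (2 * H),
        (((AKR_N H h : ℝ) / AKR_N H 0 : ℝ) : ℂ) * e (h * x) * e (-(h * y)) := by
      intro y
      unfold AKR_K
      rw [Complex.ofReal_div, AKR_four, AKR_fib H (fun h => e (h * (x - y))), Finset.sum_div]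
      refine Finset.sum_congr rfl (fun h _ => ?_)
      rw [show (h : ℝ) * (x - y) = h * x + -(h * y) by ring, AKR_e_add]
      push_cast
      ring
    rw [← intervalIntegral.integral_ofReal]
    simp only [h1]
    rw [intervalIntegral.integral_finsetSum]
    · refine Finset.sum_congr rfl (fun h _ => ?_)
      rw [intervalIntegral.integral_const_mul]
      ring
    · intro h _
      apply Continuous.intervalIntegrable
      apply Continuous.mul continuous_const
      exact AKR_cont_e.comp (by fun_prop)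
  · intro x
    refine ⟨intervalIntegral.integral_nonneg huv.le (fun y _ => AKR_K0 H _), ?_⟩
    simp only [hf]
    calc ∫ s in (x - v)..(x - u), AKR_K H s ≤ ∫ s in (x - v)..(x - v + 1), AKR_K H s :=
          AKR_mono H _ _ _ _ le_rfl (by linarith) (by linarith)
      _ = 1 := AKR_one H hH _
  · have h1 : ∀ y : ℝ, e (-(((0 : ℤ) : ℝ) * y)) = 1 := by
      intro y
      simp [AKR_e_zero]
    simp only [h1]
    rw [div_self hN0.ne']
    simp
  · intro h
    rw [norm_mul, Complex.norm_real, Real.norm_of_nonneg (by positivity)]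
    have h1 : ‖∫ y in u..v, e (-(h * y))‖ ≤ 1 * |v - u| :=
      intervalIntegral.norm_integral_le_of_norm_le_const (fun y _ => (AKR_norm_e _).le)
    rw [abs_of_nonneg (by linarith), one_mul] at h1
    have h2 : (AKR_N H h : ℝ) / AKR_N H 0 ≤ 1 := (div_le_one hN0).mpr (AKR_Nle H h)
    calc (AKR_N H h : ℝ) / AKR_N H 0 * ‖∫ y in u..v, e (-(h * y))‖ ≤ 1 * (v - u) :=
          mul_le_mul h2 h1 (norm_nonneg _) (by norm_num)
      _ = v - u := one_mul _
  · intro t x ht ⟨z, hz1, hz2⟩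
    simp only [hf]
    have ht1 : t ≤ 1 / 2 := by linarith
    rw [AKR_shift H z]
    have h1 : ∫ s in (x - u - z - 1)..(x - u - z - 1 + 1), AKR_K H s = 1 := AKR_one H hH _
    have h2 : (∫ s in (x - u - z - 1)..(x - v - z), AKR_K H s) + ∫ s in (x - v - z)..(x - u - z), AKR_K H s = 1 := by
      rw [intervalIntegral.integral_add_adjacent_intervals ((AKR_contK H).intervalIntegrable _ _)
        ((AKR_contK H).intervalIntegrable _ _)]
      rw [show x - u - (z : ℝ) - 1 + 1 = x - u - z by ring] at h1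
      exact h1
    have h3 : ∫ s in (x - u - z - 1)..(x - v - z), AKR_K H s ≤ 1 / (16 * (H : ℝ) ^ 3 * t ^ 3) := by
      calc ∫ s in (x - u - z - 1)..(x - v - z), AKR_K H s ≤ ∫ s in (t - 1)..(-t), AKR_K H s :=
            AKR_mono H _ _ _ _ (by linarith) (by linarith) (by linarith)
        _ = ∫ s in (t - 1 - ((-1 : ℤ) : ℝ))..(-t - ((-1 : ℤ) : ℝ)), AKR_K H s := AKR_shift H (-1) _ _
        _ = ∫ s in t..(1 - t), AKR_K H s := by
            congr 1 <;> push_cast <;> ring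
        _ ≤ 1 / (16 * (H : ℝ) ^ 3 * t ^ 3) := AKR_tail H hH t ht ht1
    linarith
  · intro t x ht hz
    simp only [hf]
    have hfl1 : ((⌊x - v - t⌋ : ℤ) : ℝ) ≤ x - v - t := Int.floor_le _
    have hfl2 : x - v - t < ((⌊x - v - t⌋ : ℤ) : ℝ) + 1 := Int.lt_floor_add_one _
    have h1 := hz (⌊x - v - t⌋ + 1)
    push_cast at h1
    have h2 : x - (((⌊x - v - t⌋ : ℤ) : ℝ) + 1) ≤ u - t := by
      rcases h1 with h1 | h1
      · exact h1
      · exfalso
        linarith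
    have ht1 : t ≤ 1 / 2 := by linarith
    rw [AKR_shift H ⌊x - v - t⌋]
    calc ∫ s in (x - v - ((⌊x - v - t⌋ : ℤ) : ℝ))..(x - u - ((⌊x - v - t⌋ : ℤ) : ℝ)), AKR_K H s ≤
          ∫ s in t..(1 - t), AKR_K H s :=
          AKR_mono H _ _ _ _ (by linarith) (by linarith) (by linarith)
      _ ≤ 1 / (16 * (H : ℝ) ^ 3 * t ^ 3) := AKR_tail H hH t ht ht1

end Pool.Agent.T5
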