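import Pool.Agent.helper95.T5.InterfaceB
import Pool.Agent.helper3.FT.Fin

/-!
# T5 (MP_16912e_nt), block U (helper8): the bound `A(N, Y) ≤ C (N Y) ^ ε Y √N`, the exceptional set, the zero cases

`IA K Y` = primitive ideals `a` with `Y / 2 < N a ≤ Y` whose class has order exactly 5. Results of the block: `UU_stmt` (the bound for all `N, Y`) and `UE_stmt` (few
exceptional ideals). Analytic input: `BCU_stmt` (helper95). Tools of project FT (all landed, `Pool/Agent/helper3/FT/Fin.lean` imports everything):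
`QF.Y_spec, exists_re, Y_add, Y_cj, cj_cj, sub_cj, delta_sq, exists_norm, exists_trace, dvd_of_dvd, int_inj, Y_eq_zero_iff` (`Pool/Agent/helper61/FT/A1.lean`),
`pow_inj, QF.bar_mul, bar_pow, bar_bar, bar_span, absNorm_bar, mul_bar` (helper96/FT/A2), `exists_full_of` (helper8/FT/A5a), `span_ne_bot, v₁_pos` (helper33/FT/A5b),
`exists_swap, Full.h52_red, Full.tup_inj, h52_prim_bar` (helper52/FT/A6a), `ncard_sum_eq, fund_unique` (helper8/FT/A7), `Pool.Agent.helper47.RA.card_divisors_le`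
(helper47/RA/Num.lean). Sums over `D`: `s : Finset ℤ`, `Φ : ∀ D : s, Fld D.1` (a field for each `D ∈ s`; `(Φ D).hD : (Φ D).Q.D = D`, `(Φ D).Q.hD : IsFund`).

RULES. File `Pool/Agent/<seat>/T5/XXX.lean`, `import Pool.Agent.helper8.T5.SpecU`, `namespace Pool.Agent.T5`, the open lines of this file, theorem line exactly as in the lock note,
auxiliary lemmas prefixed `XXX_`; other rows only as hypotheses; no double quotes, no convert / congr!.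
-/

set_option autoImplicit false

namespace Pool.Agent.T5

open Finset NumberField Pool.Agent.helper3.FT Pool.Agent.helper47.RA

/-! ## Elementary part: `r X² + (|D| / r) R² = 4 z⁵` -/

/-- `r ∣ D`, `gcd(R, r z) = 1`, `r² X² - D R² = 4 r z⁵` -/
structure EQd (D : ℤ) (r z : ℕ) (X R : ℤ) : Prop where
  cop : IsCoprime R ((r : ℤ) * z)
  dvd : (r : ℤ) ∣ D
  eq : (r : ℤ) ^ 2 * X ^ 2 - D * R ^ 2 = 4 * r * (z : ℤ) ^ 5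

/-- **USQ** (short-medium, 60 lines). A unit has at most `2 τ(M)` square roots modulo `M`. Proof. Let `x₀` be one of them. For a square root `x` put `g = gcd (x - x₀, M)`. `M ∣ (x - x₀)(x + x₀)` gives
`M / g ∣ x + x₀`. Two square roots `x, y` with the same `g`: `g ∣ x - y` and `M / g ∣ x - y`. The greatest common divisor of `g` and `M / g` divides `(x + x₀) - (x - x₀) = 2 x₀`, and it is coprime to `x₀` (a divisor of `M`, `x₀² = c`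
is a unit), so it divides 2; so `M ∣ 2 (x - y)` (`g (M/g) / gcd ∣ x - y`), so for given `g` there are at most two `x` in `range M` (`2 (x - y) ∈ {0, ± M}`, and three numbers `x < y < w` with differences `M / 2` are
impossible). `g` is a divisor of `M`. -/
def USQ_stmt : Prop := ∀ (M : ℕ) (c : ℤ), 0 < M → IsCoprime c (M : ℤ) →
  ((range M).filter fun x : ℕ => (M : ℤ) ∣ (x : ℤ) ^ 2 - c).card ≤ 2 * M.divisors.card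

/-- **UIV** (short, 50 lines; from USQ). The same in an interval. Proof. The integers of `[u, v]` in one class modulo `M` are at most `(v - u) / M + 1` (map `x ↦ (x - x₁) / M`, `x₁` the least one, into `range (⌊(v - u)/M⌋₊ + 1)`). The class `x % M` of
`x ∈ F` is one of the square roots of USQ (`Int.emod`; `(x % M)² - c` is divisible by `M`). -/
def UIV_stmt : Prop := ∀ (M : ℕ) (c : ℤ), 0 < M → IsCoprime c (M : ℤ) → ∀ u v : ℝ, u ≤ v → ∀ F : Finset ℤ,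
  (∀ x ∈ F, u ≤ x ∧ (x : ℝ) ≤ v ∧ (M : ℤ) ∣ x ^ 2 - c) → (F.card : ℝ) ≤ 2 * M.divisors.card * ((v - u) / M + 1)

/-- **UXR** (medium, 120 lines; from UIV). Fixed `R`. Proof. Put `D = - r E`, `E > 0`: `r X² + E R² = 4 z⁵`. With `A = 4 z⁵ / r`, `B = N R² / r²` (`N / 2 < r E ≤ N`): `A - B ≤ X² < A - B / 2`. If `F` is empty nothing to do; otherwise `B < 2 A`. So `X` lies in an
interval `[u, v]`, `v = √(A - B / 2)`, `u = √(max 0 (A - B))`, and `v - u ≤ B / √(2 A)`: if `B ≤ A`: `v - u = (B / 2) / (v + u) ≤ (B/2) / √(A / 2)`; if `A < B < 2A`: `v ≤ √(A / 2) < B / √(2 A)`. And `B / √(2A) = N R² / (√8 r^(3/2) z^(5/2))`.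
(a) `R` odd: `r` is a unit modulo `M = R²`; `r s = 1 mod M`; `M ∣ X² - 4 z⁵ s`, and `4 z⁵ s` is a unit modulo `M` (`cop`). UIV: at most `2 τ(R²) ((v - u)/R² + 1)`.
(b) `R = 2 R'` even: `r`, `z` are odd; `4 ∣ E R² - 4 z⁵ = - r X²`, so `X = 2 X'`, `r X'² + E R'² = z⁵`; UIV with `M = R'²` for `X' ∈ [u / 2, v / 2]`: at most `2 τ(R'²) ((v - u) / (2 R'²) + 1) ≤ 2 τ(R²) (2 (v - u) / R² + 1)`.
In both cases `2 (v - u) / R² ≤ (2 / √8) N / (r^(3/2) z^(5/2))`. -/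
def UXR_stmt : Prop := ∀ (N : ℝ) (r z R : ℕ), 0 < N → 1 ≤ r → 1 ≤ z → 1 ≤ R → ∀ F : Finset ℕ,
  (∀ X ∈ F, ∃ D : ℤ, N / 2 < -(D : ℝ) ∧ -(D : ℝ) ≤ N ∧ EQd D r z X R) →
  (F.card : ℝ) ≤ 2 * ((R ^ 2).divisors.card : ℝ) * (N / ((r : ℝ) * √r * ((z : ℝ) ^ 2 * √z)) + 1)

/-- **UEL** (medium, 110 lines; from UXR and the divisor bound `card_divisors_le`). Sum over `R`. Proof. `R ≠ 0` (if `R = 0` then `cop` gives `r z = 1` and `eq` gives `X² = 4`, but `X² = 4`, `R = 0`, `r = z = 1`: these at most 2 pairs `(±2, 0)` are allowed by `EQd`; they are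
excluded here by the hypothesis `p.2 ≠ 0`). The four signs of `(X, R)`: at most `4 Σ_R #F_R` with `F_R` as in UXR, `R ≥ 1`. `N R² / 2 < |D| R² ≤ 4 r z⁵`, so `R ≤ R_m = √(8 r z⁵ / N)`; `τ(R²) ≤ C' R^(2 ε') ≤ C' (8 r z⁵)^(ε')`, `ε' = ε / 5`. Sum:
`≤ 8 C' (8 r z⁵)^(ε') R_m (N / (r^(3/2) z^(5/2)) + 1)`, and `R_m N / (r^(3/2) z^(5/2)) = √8 √N / r`, `R_m = √8 z^(5/2) √r / √N`. -/
def UEL_stmt : Prop := ∀ ε : ℝ, 0 < ε → ∃ C : ℝ, 1 ≤ C ∧ ∀ (N : ℝ) (r z : ℕ), 1 ≤ N → 1 ≤ r → 1 ≤ z → ∀ F : Finset (ℤ × ℤ),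
  (∀ p ∈ F, p.2 ≠ 0 ∧ ∃ D : ℤ, N / 2 < -(D : ℝ) ∧ -(D : ℝ) ≤ N ∧ EQd D r z p.1 p.2) →
  (F.card : ℝ) ≤ C * ((r : ℝ) * z) ^ ε * (√N / r + (z : ℝ) ^ 2 * √z * √r / √N)

/-- **USM** (short-medium, 110 lines). Three sums. Proof. (1) `Σ 1/r ≤ Σ_{r ≤ Y} (Y / r) / r ≤ 2 Y`; `Σ z^(5/2) √r ≤ Σ_r √r (Y/r)^(7/2) = Y^(7/2) Σ r^(-3) ≤ 2 Y^(7/2)` (for given `r` there are at most `Y / r` values of `z`, each `≤ Y / r`). (2) For given `z` there are at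
most `Y / z` values of `r`, and `1 / r < 2 z / Y`: sum `≤ 2` for each `z ≤ √B`; `z^(5/2) √r ≤ z^(5/2) (Y / z)^(1/2)`, sum over `r` `≤ z Y^(3/2)`, and `Σ_{z ≤ √B} z ≤ B`. (3) For given `z ≤ √Y`: `Σ_{r ≤ B} 1/r ≤ 1 + log B`; `Σ_{r ≤ B / z} z^(5/2) √r ≤ z^(5/2) (B/z)^(3/2)
= z B^(3/2)`, `Σ_{z ≤ √Y} z ≤ Y`. -/
def USM_stmt : Prop :=
  (∀ Y : ℝ, 1 ≤ Y → ∀ F : Finset (ℕ × ℕ), (∀ p ∈ F, 1 ≤ p.1 ∧ 1 ≤ p.2 ∧ (p.1 : ℝ) * p.2 ≤ Y) →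
    ∑ p ∈ F, 1 / (p.1 : ℝ) ≤ 2 * Y ∧ ∑ p ∈ F, (p.2 : ℝ) ^ 2 * √p.2 * √p.1 ≤ 2 * (Y ^ 3 * √Y)) ∧
  (∀ Y B : ℝ, 1 ≤ Y → 1 ≤ B → ∀ F : Finset (ℕ × ℕ),
    (∀ p ∈ F, 1 ≤ p.1 ∧ 1 ≤ p.2 ∧ (p.1 : ℝ) * p.2 ≤ Y ∧ Y / 2 < (p.1 : ℝ) * p.2 ∧ (p.2 : ℝ) ^ 2 ≤ B) →
    ∑ p ∈ F, 1 / (p.1 : ℝ) ≤ 2 * √B ∧ ∑ p ∈ F, (p.2 : ℝ) ^ 2 * √p.2 * √p.1 ≤ B * (Y * √Y)) ∧
  (∀ Y B : ℝ, 1 ≤ Y → 1 ≤ B → ∀ F : Finset (ℕ × ℕ),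
    (∀ p ∈ F, 1 ≤ p.1 ∧ 1 ≤ p.2 ∧ (p.1 : ℝ) * p.2 ≤ B ∧ (p.2 : ℝ) ^ 2 ≤ Y) →
    ∑ p ∈ F, 1 / (p.1 : ℝ) ≤ √Y * (1 + Real.log B) ∧ ∑ p ∈ F, (p.2 : ℝ) ^ 2 * √p.2 * √p.1 ≤ Y * (B * √B))

/-! ## Ideals -/

section defs

variable {K : Type} [Field K] [NumberField K]

/-- norm of the ramified part `a ⊔ ā` -/
noncomputable def rr (Q : QF K) (a : Ideal (𝓞 K)) : ℕ := Ideal.absNorm (a ⊔ Q.bar a)

/-- norm of the unramified part -/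
noncomputable def zz (Q : QF K) (a : Ideal (𝓞 K)) : ℕ := Ideal.absNorm a / rr Q a

end defs

/-- **UEA** (short-medium, 80 lines). The decomposition `a = I b`, `I = a ⊔ ā`, `r = N I`. Proof. `Q.bar I = I` (`Ideal.map_sup`, `bar_bar`), so `I² = I · Ī = (N I)` (`mul_bar`). `I ∣ a` (`Ideal.dvd_iff_le`): `a = I b`, so `ā = Ī b̄ = I b̄`, and `I (b ⊔ b̄) = a ⊔ ā = I`, so
`b ⊔ b̄ = ⊤` (`Ideal.mul_sup`, cancel `I ≠ ⊥`). `N a = N I · N b`, so `zz Q a = N b`. Squarefree: if `q² ∣ r`, `q` prime, then `(q)² ∣ (r) = I²`, so `(q) ∣ I ∣ a` (`pow_dvd_pow_iff` in the normalised/unique factorisation monoid of ideals), against `Prim a`. -/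
def UEA_stmt : Prop := ∀ (K : Type) [Field K] [NumberField K] (Q : QF K) (a : Ideal (𝓞 K)), a ≠ ⊥ → Prim a →
  ∃ I b : Ideal (𝓞 K), I = a ⊔ Q.bar a ∧ a = I * b ∧ Q.bar I = I ∧ I * I = Ideal.span {(rr Q a : 𝓞 K)} ∧ b ⊔ Q.bar b = ⊤ ∧
    Ideal.absNorm b = zz Q a ∧ Ideal.absNorm a = rr Q a * zz Q a ∧ 1 ≤ rr Q a ∧ 1 ≤ zz Q a ∧ Squarefree (rr Q a)

/-- **UEI** (medium, 130 lines; from UEA). From ideals to integers. Proof. `a^5 = I^5 b^5 = (r²) I b^5` (`I⁴ = (r²)`), so `r² ∣ θ`, `θ = r² θ₁`, `(θ₁) = I b^5`. Let `R = Y(θ₁)`, `T = θ₁ + cj θ₁ ∈ ℤ` (`exists_trace`), `δ = 2ω - t`, `2 θ₁ = T + R δ` (`sub_cj`), `T² - D R² = 4 N`, `N = θ₁ cj θ₁` an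
integer, `N ≥ 0` as `D < 0`, so `N = r z^5` (`exists_norm`; absolute norm of `I b^5`). COPRIME: let `q` be a prime, `q ∣ R`, `q ∣ r z`. Then `q ∣ N`, so `q ∣ θ₁` (`dvd_of_dvd`), `(q) ∣ I b^5`, and by conjugation `(q) ∣ I b̄^5`; so `(q) ∣ I (b^5 ⊔ b̄^5) = I` (`b^5 ⊔ b̄^5 = ⊤`:
`IsCoprime.pow`), `I ∣ a`: against `Prim a`. `r ∣ T`: `θ₁ ∈ I`, `cj θ₁ ∈ Ī = I`, so `T ∈ I`, `T² ∈ I² = (r)`, `r ∣ T²` in `ℤ` (`int_dvd_iff` or `absNorm`), `r` is squarefree, so `r ∣ T = r X`. `r ∣ D`: `D R² = T² - 4 r z^5`, `gcd(r, R) = 1`. `R ≠ 0`: otherwise `r z = 1`, `N a = 1`, `a = ⊤`. -/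
def UEI_stmt : Prop := ∀ (K : Type) [Field K] [NumberField K] (Q : QF K), Q.D < 0 → ∀ a : Ideal (𝓞 K), a ≠ ⊥ → Prim a → a ≠ ⊤ →
  (a ^ 5).IsPrincipal → ∃ (X R : ℤ) (θ₁ : 𝓞 K), EQd Q.D (rr Q a) (zz Q a) X R ∧ R ≠ 0 ∧
    2 * θ₁ = (rr Q a : 𝓞 K) * X + R * (2 * Q.ω - Q.t) ∧ a ^ 5 = Ideal.span {(rr Q a : 𝓞 K) ^ 2 * θ₁}

/-- **UEC** (medium, 100 lines; from UEA, UEI, UEL). Counting. Proof. For `D ∈ s` and `a ∈ 𝒜 D` choose `(X, R)` by UEI. The map `(D, a) ↦ ((r, z), (X, R))`, `r = rr a`, `z = zz a`, is injective: `D R² = r² X² - 4 r z⁵`, `R ≠ 0`, determines `D`; then `θ₁` (`2 θ₁ = ...`), `a^5` and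
`a` (`pow_inj`). So the sum is at most `Σ_{(r,z) ∈ P} #F_{r,z}` with `F_{r,z}` as in UEL. (For the sum over `D`: `ncard_sum_eq`, or a `Finset.sigma` and `Finset.card_le_card_of_injOn`; `𝒜 D ⊆ IA` is finite: `Ideal.finite_setOf_absNorm_le`.) -/
def UEC_stmt : Prop := ∀ ε : ℝ, 0 < ε → ∃ C : ℝ, 1 ≤ C ∧ ∀ (N Y : ℝ), 1 ≤ N → 1 ≤ Y → ∀ (s : Finset ℤ) (Φ : ∀ D : s, Fld D.1), (∀ D ∈ s, N / 2 < -(D : ℝ) ∧ -(D : ℝ) ≤ N) →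
  ∀ (P : Finset (ℕ × ℕ)) (𝒜 : ∀ D, Set (Ideal (𝓞 (Φ D).K))), (∀ p ∈ P, (p.1 : ℝ) * p.2 ≤ Y) →
  (∀ D : s, ∀ a ∈ 𝒜 D, a ≠ ⊥ ∧ Prim a ∧ (a ^ 5).IsPrincipal ∧ ¬ a.IsPrincipal ∧ (rr (Φ D).Q a, zz (Φ D).Q a) ∈ P) →
  (∑ D : s, ((𝒜 D).ncard : ℝ)) ≤ C * Y ^ ε * ∑ p ∈ P, (√N / p.1 + (p.2 : ℝ) ^ 2 * √p.2 * √p.1 / √N)

/-- **UE1** (short, 40 lines; from UEC, UEA, USM). The elementary bound. Proof. `P` = the pairs `(r, z)` with `1 ≤ r, z`, `r z ≤ Y` (`UEA`: `N a = r z`), `USM` (1). -/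
def UE1_stmt : Prop := ∀ ε : ℝ, 0 < ε → ∃ C : ℝ, 1 ≤ C ∧ ∀ (N Y : ℝ), 1 ≤ N → 1 ≤ Y → ∀ (s : Finset ℤ) (Φ : ∀ D : s, Fld D.1), (∀ D ∈ s, N / 2 < -(D : ℝ) ∧ -(D : ℝ) ≤ N) →
  (∑ D : s, ((IA (Φ D).K Y).ncard : ℝ)) ≤ C * Y ^ ε * (Y * √N + Y ^ 3 * √Y / √N)

/-! ## The structure `Full` for a given ideal, zero cases -/

/-- **UFX** (short-medium, 110 lines). Proof. Among the nonzero elements of `a²` let `β` have least absolute norm `N(β)` (`N(x) = v₁(x)²` by `hnorm`, `himag`). `(β) = a² L`. `Prim L`: if `(q) ∣ L` then `β = q β'`, `β' ∈ a²` (`(q) a² ∣ (β)`, cancel `(q)`), smaller norm. `a^5 = (θ)`;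
`((N a) β²) = a ā a⁴ L² = (θ) ā L²`, so `θ ∣ (N a) β²`, `γ` the quotient, `(γ) = ā L²`. `exists_full_of` gives `F`. `N(L) N(a)² = N(β) ≤ v₁(α)² ≤ N(a)² B`, so `N(L) ≤ B`. Signs: for `x ≠ 0` and `D < 0` the integer `x cj x` is positive (`4 x cj x = T² - D Y²`), so `nβ`, `nγ` give `Λ > 0`, `Z > 0`,
and `na`, `nL`. -/
def UFX_stmt : Prop := ∀ (K : Type) [Field K] [NumberField K] (Q : QF K), Q.D < 0 → ∀ a : Ideal (𝓞 K), a ≠ ⊥ → Prim a → (a ^ 5).IsPrincipal →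
  ∀ B : ℝ, (∃ α ∈ a ^ 2, α ≠ 0 ∧ (Q.v₁ α) ^ 2 ≤ (Ideal.absNorm a : ℝ) ^ 2 * B) →
  ∃ F : Full Q, F.a = a ∧ 0 < F.Λ ∧ (F.Λ : ℝ) ≤ B ∧ F.Z = (Ideal.absNorm a : ℤ) ∧ 0 < F.Z

/-- **UMK** (short, 30 lines). Minkowski. Proof. `hmink` for the ideal `a²` and `A = B = 2 |D|^(1/4) N(a)`: `4 √|D| N(a)² = A²`; `v₁ x ≤ A`. -/
def UMK_stmt : Prop := ∀ (K : Type) [Field K] [NumberField K] (Q : QF K), Q.D < 0 → ∀ a : Ideal (𝓞 K), a ≠ ⊥ →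
  ∃ α ∈ a ^ 2, α ≠ 0 ∧ (Q.v₁ α) ^ 2 ≤ (Ideal.absNorm a : ℝ) ^ 2 * (4 * √(-(Q.D : ℝ)))

/-- **UZC** (short-medium, 70 lines; from UEA). The zero case `y(β) = 0`. Proof. `β = c ∈ ℤ` (`Y_eq_zero_iff`), `c ≠ 0`. `a = I b` as in UEA, `a² = (r) b²`, `ā² = (r) b̄²`. `c ∈ a²`, `c = cj c ∈ ā²`; so `(c)` is divisible by `(r) b²` and by `(r) b̄²`, `(c) = (r) J`, `b² ∣ J`, `b̄² ∣ J`, coprime, so
`b² b̄² = (z²) ∣ J`: `r z² ∣ c`. `c² = β cj β = Z² Λ` and `|Z| = r z` give `z² (r z)² ≤ c² = (r z)² Λ`. -/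
def UZC_stmt : Prop := ∀ (K : Type) [Field K] [NumberField K] (Q : QF K) (F : Full Q), Q.Y F.β = 0 → ((zz Q F.a : ℕ) : ℤ) ^ 2 ≤ |F.Λ|

/-- **UZ1** (short, 50 lines; from UEC, UEA, USM). Proof. `P` = pairs with `1 ≤ r, z`, `Y / 2 < r z ≤ Y`, `z² ≤ B`; USM (2). -/
def UZ1_stmt : Prop := ∀ ε : ℝ, 0 < ε → ∃ C : ℝ, 1 ≤ C ∧ ∀ (N Y B : ℝ), 1 ≤ N → 1 ≤ Y → 1 ≤ B → ∀ (s : Finset ℤ) (Φ : ∀ D : s, Fld D.1), (∀ D ∈ s, N / 2 < -(D : ℝ) ∧ -(D : ℝ) ≤ N) →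
  (∑ D : s, (({a ∈ IA (Φ D).K Y | ((zz (Φ D).Q a : ℕ) : ℝ) ^ 2 ≤ B} : Set (Ideal (𝓞 (Φ D).K))).ncard : ℝ)) ≤
    C * Y ^ ε * (√B * √N + B * (Y * √Y) / √N)

/-- **UZ2** (medium, 120 lines; from UEC, UEA, UZC, USM). The zero case `y(γ) = 0`. Proof. Let `F : Full (Φ D).Q` with `F.a = a ∈ IA`, `0 < Λ ≤ B`, `Y(γ) = 0`. `L = F.L` is primitive, `L^5 = (α')`, `L ≠ ⊥`, `L` is not principal (otherwise `a² L = (β)` makes `a²` principal, `a^5` is principal, so `a` would be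
principal: classes). `exists_swap` gives `F'` with `F'.a = L`, `F'.β = F.γ`, `F'.Λ = F.Z`, so by UZC `(zz L)² ≤ F.Z ≤ Y`, and `rr L · zz L = N L = Λ ≤ B`. The map `a ↦ L` is injective on these `a` (for fixed `D`): `γ = c ∈ ℤ`, `(c) = ā L²`, `(c') = ā' L²`: `(c') ā = (c) ā'`; `ā, ā'` are primitive, so
`c' ∣ c` and `c ∣ c'` (`(c')(ā) = (c) ā'`: if a prime power `q^e` divides `c` exactly and `q^(e+1) ∣ c'` ... cancel the common factor: `c = g c₁`, `c' = g c₂`, `gcd(c₁, c₂) = 1`, `(c₂) ā = (c₁) ā'`, a prime `q ∣ c₂` gives `(q) ∣ (c₁) ā'`, `(q)` coprime to `(c₁)`, so `(q) ∣ ā'`), so `ā = ā'`.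
UEC with `𝒜 D` = the set of these `L`, `P` = the pairs with `1 ≤ r, z`, `r z ≤ B`, `z² ≤ Y`; USM (3). -/
def UZ2_stmt : Prop := ∀ ε : ℝ, 0 < ε → ∃ C : ℝ, 1 ≤ C ∧ ∀ (N Y B : ℝ), 1 ≤ N → 1 ≤ Y → 1 ≤ B → ∀ (s : Finset ℤ) (Φ : ∀ D : s, Fld D.1), (∀ D ∈ s, N / 2 < -(D : ℝ) ∧ -(D : ℝ) ≤ N) →
  (∑ D : s, (({a ∈ IA (Φ D).K Y | ∃ F : Full (Φ D).Q, F.a = a ∧ 0 < F.Λ ∧ (F.Λ : ℝ) ≤ B ∧ (Φ D).Q.Y F.γ = 0} : Set (Ideal (𝓞 (Φ D).K))).ncard : ℝ)) ≤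
    C * B ^ ε * (√Y * √N * (1 + Real.log B) + Y * (B * √B) / √N)

/-! ## The main case -/

/-- **UBC** (short, 50 lines; from BC_stmt of Defs). `BC` with `0 < Λ ≤ Q₂` instead of a dyadic range. Proof. `Λ ≥ 1` lies in exactly one `(Q₂ / 2^(j+1), Q₂ / 2^j]`, `j ≤ J = ⌊log₂ Q₂⌋` (`Nat.log` or `Real.logb`), and `Q₂ / 2^j ≥ 1`. Sum of `BC` (with `ε / 2`) over `j`:
`C N^(ε/2) (2 Q₁ Q₂ + (J + 1) Q₁ N^(1/2-c))`, `J + 1 ≤ C' N^(ε/2)` as `Q₂ ≤ N`. -/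
def BCU_stmt : Prop := ∀ δ : ℝ, 0 < δ → δ ≤ 1 / 10 → ∃ c : ℝ, 0 < c ∧ ∀ ε : ℝ, 0 < ε → ∃ C : ℝ, 1 ≤ C ∧
  ∀ N Q₁ Q₂ : ℝ, 1 ≤ N → N ^ (0.38 : ℝ) ≤ Q₁ → Q₁ ≤ N ^ (1 / 2 - δ) → 1 ≤ Q₂ → Q₂ ≤ N ^ (1 / 2 + δ / 100) →
  ∀ F : Finset Tpl, (∀ t ∈ F, IsT t ∧ Q₁ / 2 < t.2.2.2 ∧ (t.2.2.2 : ℝ) ≤ Q₁ ∧ 0 < lam t ∧ (lam t : ℝ) ≤ Q₂ ∧ N / 2 < -(dis t : ℝ)) →
  (F.card : ℝ) ≤ C * N ^ ε * (Q₁ * Q₂ + Q₁ * N ^ (1 / 2 - c))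

/-- **UTP** (short-medium, 90 lines). The tuple of a `Full`. Proof. `d = gcd(n, k)`, `Full.h52_red` (Pool/Agent/helper52/FT/A6a.lean) gives integers `n', k', m', g'` with `n = d n'` etc. and the relations; `σ = sign(n') sign(k')`; `t = ((|n'|, |k'|), (σ m', σ g', Z))`. `c1`, `c2`: from
`m' g' = Λ n'² - Z k'²` and `n' ∣ g'² - Λ k'²` (`n'² (g'² - Λ k'²) = n'² g'² - k'² (m' g' + Z k'²)`), `k' ∣ m'² - Z n'²`. `lam t = Λ` and `dis t = D d²` from the definitions (exact divisions). Injective: `t` and the signs of `n'`, `k'` determine `F.tup`, and `Full.tup_inj` gives `F.a`. -/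
def UTP_stmt : Prop := ∀ (K : Type) [Field K] [NumberField K] (Q : QF K), Q.D < 0 → ∃ T : Full Q → Tpl × (Bool × Bool),
  (∀ F : Full Q, Q.Y F.β ≠ 0 → Q.Y F.γ ≠ 0 → 0 < F.Z → 0 < F.Λ → IsT (T F).1 ∧ (T F).1.2.2.2 = F.Z ∧ lam (T F).1 = F.Λ ∧
    ∃ d : ℤ, d ≠ 0 ∧ dis (T F).1 = Q.D * d ^ 2) ∧
  ∀ F F' : Full Q, Q.Y F.β ≠ 0 → Q.Y F.γ ≠ 0 → Q.Y F'.β ≠ 0 → Q.Y F'.γ ≠ 0 → T F = T F' → F.a = F'.a

/-- **UMN** (medium, 100 lines; from UTP, UBC). Proof. For `D ∈ s` and `a` in the set choose `F` and its `T F`. The map `(D, a) ↦ T F` is injective: `dis t = D d²` with `D` fundamental determines `D` (`fund_unique`), then `F.a = a`. So the sum is at most `4 #{t}`, and the `t` satisfy the hypotheses of BCU with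
`Q₁ = Y`, `Q₂ = B` (`N / 2 < -D ≤ - D d²`). -/
def UMN_stmt : Prop := ∀ δ : ℝ, 0 < δ → δ ≤ 1 / 10 → ∃ c : ℝ, 0 < c ∧ ∀ ε : ℝ, 0 < ε → ∃ C : ℝ, 1 ≤ C ∧ ∀ (N Y B : ℝ), 1 ≤ N → N ^ (0.38 : ℝ) ≤ Y →
  Y ≤ N ^ (1 / 2 - δ) → 1 ≤ B → B ≤ N ^ (1 / 2 + δ / 100) → ∀ (s : Finset ℤ) (Φ : ∀ D : s, Fld D.1), (∀ D ∈ s, N / 2 < -(D : ℝ) ∧ -(D : ℝ) ≤ N) →
  (∑ D : s, (({a ∈ IA (Φ D).K Y | ∃ F : Full (Φ D).Q, F.a = a ∧ 0 < F.Λ ∧ (F.Λ : ℝ) ≤ B ∧ 0 < F.Z ∧ (Φ D).Q.Y F.β ≠ 0 ∧ (Φ D).Q.Y F.γ ≠ 0} :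
    Set (Ideal (𝓞 (Φ D).K))).ncard : ℝ)) ≤ C * N ^ ε * (Y * B + Y * N ^ (1 / 2 - c))

/-- **UM** (medium, 120 lines; from UFX, UZC, UZ1, UZ2, UMN). Ideals `a` with a short vector in `a²`. Proof. Let `a ∈ EX Q Y B`, `F` from UFX. If `y(β) = 0` then `(zz a)² ≤ Λ ≤ B` (UZC) and `a` is counted in UZ1. If `y(γ) = 0`: UZ2. Otherwise UMN. So the sum is at most (with `ε / 4` instead of `ε`)
`C N^(ε/2) (Y B + Y N^(1/2-c₁) + √B √N + B Y^(3/2)/√N + √Y √N (1 + log B) + Y B^(3/2) / √N)`. With `N^0.38 ≤ Y ≤ N^(1/2)`, `B ≤ N^(1/2 + δ/100) ≤ N^0.501`: `√B √N ≤ N^0.7505 ≤ Y N^0.3705`; `B Y^(3/2) / √N ≤ Y N^(0.001 + 0.25)`; `√Y √N ≤ Y N^(1/2 - 0.19)`; `Y B^(3/2)/√N ≤ Y N^0.2515`;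
so `c = min(c₁, 1/10)`, and `1 + log B ≤ C N^(ε/2)`. -/
def UM_stmt : Prop := ∀ δ : ℝ, 0 < δ → δ ≤ 1 / 10 → ∃ c : ℝ, 0 < c ∧ ∀ ε : ℝ, 0 < ε → ∃ C : ℝ, 1 ≤ C ∧ ∀ (N Y B : ℝ), 1 ≤ N → N ^ (0.38 : ℝ) ≤ Y →
  Y ≤ N ^ (1 / 2 - δ) → 1 ≤ B → B ≤ N ^ (1 / 2 + δ / 100) → ∀ (s : Finset ℤ) (Φ : ∀ D : s, Fld D.1), (∀ D ∈ s, N / 2 < -(D : ℝ) ∧ -(D : ℝ) ≤ N) →
  (∑ D : s, ((EX (Φ D).Q Y B).ncard : ℝ)) ≤ C * N ^ ε * (Y * B + Y * N ^ (1 / 2 - c))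

/-- **UE** (short, 40 lines; from UM). The exceptional set (helper95, helper26): `B = N^(1/2 - δ/200)`. Proof. UM with `ε = min(c, δ/200) / 2`; `C N^ε (Y N^(1/2-δ/200) + Y N^(1/2-c)) ≤ 2 C N^(-ε) Y √N ≤ N^(-ε/2) Y √N` for `N ≥ N₀`. -/
def UE_stmt : Prop := ∀ δ : ℝ, 0 < δ → δ ≤ 1 / 10 → ∃ c N₀ : ℝ, 0 < c ∧ 1 ≤ N₀ ∧ ∀ (N Y : ℝ), N₀ ≤ N → N ^ (0.38 : ℝ) ≤ Y →
  Y ≤ N ^ (1 / 2 - δ) → ∀ (s : Finset ℤ) (Φ : ∀ D : s, Fld D.1), (∀ D ∈ s, N / 2 < -(D : ℝ) ∧ -(D : ℝ) ≤ N) →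
  (∑ D : s, ((EX (Φ D).Q Y (N ^ (1 / 2 - δ / 200))).ncard : ℝ)) ≤ N ^ (-c) * (Y * √N)

/-! ## Large `Y`: ideals in a class -/

/-- **ULP** (medium, 130 lines). Lattice points in a disc. Proof. Let `I` be a nonzero ideal, `m` the least of the `v₁(x)²`, `x ∈ I` nonzero, attained at `α₁` (`v₁(x)² = N(x)` is a positive integer), `m ≥ μ`. For `x ∈ I` the element `x cj α₁` lies in `I Ī = (N I)`, so `Y(x cj α₁) = N(I) j`, `j ∈ ℤ`, and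
`|j| N(I) √|D| ≤ 2 v₁(x) v₁(α₁) ≤ 2 √B √m` (`Y_bound`). For given `j` the difference `y` of two such `x` has `Y(y cj α₁) = 0`, so `y cj α₁` is an integer `e`, `y m = e α₁`; write `e = q m + e'`, `|e'| ≤ m / 2`: `y - q α₁ ∈ I` has `v₁(y - q α₁)² = e'² / m ≤ m / 4 < m`, so it is 0 and `y = q α₁`, `|q| √m = v₁(y) ≤ 2 √B`. So
for given `j` there are at most `4 √(B/m) + 1` of them, and at most `4 √B √m / (N(I) √|D|) + 1` values `j`. With `m ≤ 4 √|D| N(I)` (`hmink`): product `≤ 16 B / (N(I) √|D|) + 4 √(B/m) + 4 √(B/m) · m / (N(I) √|D|) + 1 ≤ 16 B/(N(I) √|D|) + 20 √(B/m) + 1`. -/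
def ULP_stmt : Prop := ∀ (K : Type) [Field K] [NumberField K] (Q : QF K), Q.D < 0 → ∀ I : Ideal (𝓞 K), I ≠ ⊥ → ∀ B μ : ℝ, 0 ≤ B → 0 < μ →
  (∀ x ∈ I, x ≠ 0 → μ ≤ (Q.v₁ x) ^ 2) → ∀ F : Finset (𝓞 K), (∀ x ∈ F, x ∈ I ∧ (Q.v₁ x) ^ 2 ≤ B) →
  (F.card : ℝ) ≤ 20 * (B / (Ideal.absNorm I * √(-(Q.D : ℝ))) + √(B / μ) + 1)

/-- **UIC** (medium, 110 lines; from ULP). Ideals in a class. Proof. Let `a₁ ≠ ⊥` have least norm `A₁` in its class. For `a` in the same class `a ā₁` is principal, `= (x)`, `x ∈ ā₁`, `N(x) = N(a) A₁ ≤ Y A₁`; `a ↦ x` is injective. The nonzero `y ∈ ā₁`: `(y) = ā₁ c`, `c` in the class of `a₁` (`ā₁` is inverse to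
`a₁`: `mul_bar`), so `v₁(y)² = N(y) = A₁ N(c) ≥ A₁²`. ULP with `I = ā₁`, `B = Y A₁`, `μ = A₁²`: `Y A₁ / (A₁ √|D|) + √(Y / A₁) + 1`. (Same class: `∃ x y ≠ 0, (x) a = (y) a₁`, or `ClassGroup.mk0`; stated with `a * Q.bar a₁` principal.) -/
def UIC_stmt : Prop := ∀ (K : Type) [Field K] [NumberField K] (Q : QF K), Q.D < 0 → ∀ a₁ : Ideal (𝓞 K), a₁ ≠ ⊥ →
  (∀ c : Ideal (𝓞 K), c ≠ ⊥ → (c * Q.bar a₁).IsPrincipal → Ideal.absNorm a₁ ≤ Ideal.absNorm c) → ∀ Y : ℝ, 1 ≤ Y → ∀ F : Finset (Ideal (𝓞 K)),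
  (∀ a ∈ F, a ≠ ⊥ ∧ (a * Q.bar a₁).IsPrincipal ∧ (Ideal.absNorm a : ℝ) ≤ Y) →
  (F.card : ℝ) ≤ 20 * (Y / √(-(Q.D : ℝ)) + √(Y / Ideal.absNorm a₁) + 1)

/-- **UCM** (medium, 120 lines; from UIC, UMK-like Minkowski). The ideals of `IA K Y` in terms of the minimal ideals. Proof. For every class `c ≠ 1`, `c^5 = 1`, choose an ideal `a₁(c) ≠ ⊥` of least norm; `Mn` = the set of these. It is primitive (if `(q) ∣ a₁` then `a₁ / q` is smaller in the same class), `a₁^5` is principal,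
`a₁` is not, so `a₁ ∈ IA K V` for `V = 2^i ≥ N a₁ > V / 2`, and `N a₁ ≤ 4 √|D|` (`hmink` for an ideal `b` of the class `c⁻¹`: `x ∈ b`, `(x) = b a`, `N a = N(x)/N(b) ≤ 4 √|D|`). `#Mn ≤ #Cl[5]`. UIC for each of them. -/
def UCM_stmt : Prop := ∀ (K : Type) [Field K] [NumberField K] (Q : QF K), Q.D < 0 → ∃ Mn : Finset (Ideal (𝓞 K)),
  Mn.card ≤ Nat.card {x : ClassGroup (𝓞 K) // x ^ 5 = 1} ∧
  (∀ a ∈ Mn, a ≠ ⊥ ∧ Prim a ∧ (a ^ 5).IsPrincipal ∧ ¬ a.IsPrincipal ∧ (Ideal.absNorm a : ℝ) ≤ 4 * √(-(Q.D : ℝ))) ∧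
  ∀ Y : ℝ, 1 ≤ Y → ((IA K Y).ncard : ℝ) ≤ ∑ a ∈ Mn, 20 * (Y / √(-(Q.D : ℝ)) + √(Y / Ideal.absNorm a) + 1)

/-- **UU1** (medium, 100 lines; from UE1, UM, UMK). The bound for `Y ≤ N^(1/2 - δ)`. Proof. `Y ≤ N^0.39`: UE1, `Y^(7/2)/√N ≤ Y √N` as `Y^(5/2) ≤ N`. `N^0.38 ≤ Y ≤ N^(1/2 - δ)`: `IA = EX Q Y (4 √N)` by UMK. If `4 √N ≤ N^(1/2 + δ/100)`: UM with `B = 4 √N`. If not, `N ≤ N₁ = 4^(100/δ)`, and UE1 gives a constant. -/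
def UU1_stmt : Prop := ∀ δ : ℝ, 0 < δ → δ ≤ 1 / 10 → ∀ ε : ℝ, 0 < ε → ∃ C : ℝ, 1 ≤ C ∧ ∀ (N Y : ℝ), 1 ≤ N → 1 ≤ Y → Y ≤ N ^ (1 / 2 - δ) →
  ∀ (s : Finset ℤ) (Φ : ∀ D : s, Fld D.1), (∀ D ∈ s, N / 2 < -(D : ℝ) ∧ -(D : ℝ) ≤ N) → (∑ D : s, ((IA (Φ D).K Y).ncard : ℝ)) ≤ C * N ^ ε * (Y * √N)

/-- **UFT** (short-medium, 60 lines; `torsion_le`, `sum_SD`, `sum_ZD`, `count_SS`, `count_ZZ`, `exists_T` of FT). The first moment of `#Cl[5]` for chosen fields. Proof. Copy the proof of `main_bound` (Pool/Agent/helper3/FT/Fin.lean) with the field `(Φ D).K`, `(Φ D).Q`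
instead of `exists_QF` (there `hf` is only used to replace `f D`). -/
def UFT_stmt : Prop := ∀ ε : ℝ, 0 < ε → ∃ C : ℝ, 1 ≤ C ∧ ∀ N : ℝ, 1 ≤ N → ∀ (s : Finset ℤ) (Φ : ∀ D : s, Fld D.1),
  (∀ D ∈ s, N / 2 < -(D : ℝ) ∧ -(D : ℝ) ≤ N) → ∑ D : s, (Nat.card {x : ClassGroup (𝓞 (Φ D).K) // x ^ 5 = 1} : ℝ) ≤ C * N ^ (1 + ε)

/-- **UU** (medium-long, 160 lines; from UU1, UCM, UFT). THE RESULT. Proof. `δ = min(ε/8, 1/10)`. `Y ≤ N^(1/2-δ)`: UU1. Let `Y > N^(1/2-δ)`. By UCM the sum is at most `Σ_D Σ_{a ∈ Mn D} 20 (2 Y/√N + √(Y / N a) + 1)`. Total number of minimal ideals: `Σ_D #Mn D ≤ Σ_D #Cl[5] ≤ C N^(1+δ)` (UFT). (i) `2 Y / √N + 1`: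
`≤ C N^(1+δ) (2 Y/√N + 1) ≤ 3 C N^(2δ) Y √N`. (ii) The `a ∈ Mn D` with `N a > N^(1/2-δ)/2`: `√(Y / N a) ≤ 2 √Y N^(-1/4 + δ/2)`, total `≤ C N^(3/4 + 3δ/2) √Y ≤ C N^(2 δ) Y √N` since `√Y ≥ N^(1/4 - δ/2)`. (iii) The others: `2^(i-1) < N a ≤ 2^i =: V`, `V ≤ N^(1/2-δ)` (`N a ≤ N^(1/2-δ)/2`), at most
`Σ_D #IA V ≤ C N^δ V √N` of them (UU1 with `Y := V`), each contributes `√(2 Y / V)`: `C N^δ √(2 Y V) √N ≤ C' N^δ Y √N` as `V ≤ Y`; the number of `i` is at most `C log (2 N) ≤ C'' N^δ`. -/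
def UU_stmt : Prop := ∀ ε : ℝ, 0 < ε → ∃ C : ℝ, 1 ≤ C ∧ ∀ (N Y : ℝ), 1 ≤ N → 1 ≤ Y →
  ∀ (s : Finset ℤ) (Φ : ∀ D : s, Fld D.1), (∀ D ∈ s, N / 2 < -(D : ℝ) ∧ -(D : ℝ) ≤ N) → (∑ D : s, ((IA (Φ D).K Y).ncard : ℝ)) ≤ C * N ^ ε * (Y * √N)

/-- **UFU** (short, 40 lines; from UU). Interface. Proof. `s` = the `D ∈ DN N` with `Nonempty (Fld D)`, `Φ D` = the field of `cA`. `N^ε ≤ (N Y)^ε`. -/
def UFU_stmt : Prop := U_stmt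

/-- **UFE** (short, 40 lines; from UE). Interface. Proof. `s` = the `D ∈ DN N` with `Nonempty (Fld D)`, `Φ D` = the field of `cE`. -/
def UFE_stmt : Prop := ∀ δ : ℝ, 0 < δ → δ ≤ 1 / 10 → EXC_stmt δ

end Pool.Agent.T5
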