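import Pool.Agent.helper8.T5.SpecU
import Pool.Agent.helper96.FT.A4a

/-!
# T5, block U: row UEI
-/

set_option autoImplicit false

namespace Pool.Agent.T5

open Finset NumberField Pool.Agent.helper3.FT Pool.Agent.helper47.RA

/-- norm and trace -/
private theorem UEI_data {K : Type} [Field K] [NumberField K] (Q : QF K) (a : 𝓞 K) : ∃ N S : ℤ,
    a * Q.cj a = N ∧ a + Q.cj a = S ∧ 4 * N = S ^ 2 - Q.D * Q.Y a ^ 2 := by
  obtain ⟨x, hx⟩ := Q.exists_re a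
  generalize Q.Y a = y at hx ⊢
  refine ⟨x ^ 2 + Q.t * x * y - Q.k * y ^ 2, 2 * x + Q.t * y, ?_, ?_, ?_⟩
  · rw [hx, Q.norm_form]
  · rw [hx, Q.cj_form]
    push_cast
    ring
  · have h1 := Q.t_sq
    have h2 := Q.hk
    rw [h2]
    linear_combination (-(y ^ 2)) * h1

theorem UEI (hUEA : UEA_stmt) : UEI_stmt := by
  intro K _ _ Q hD a ha hP hT hpr
  obtain ⟨I, b, hI, hab, hbI, hII, hbb, hNb, hNa, hr1, hz1, hsq⟩ := hUEA K Q a ha hP
  set r : ℕ := rr Q a with hr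
  set z : ℕ := zz Q a with hz
  have hr0 : (r : 𝓞 K) ≠ 0 := by
    have : r ≠ 0 := by omega
    exact_mod_cast this
  obtain ⟨θ, hθ⟩ := hpr
  have hθ' : a ^ 5 = Ideal.span {θ} := hθ
  have hI0 : I ≠ ⊥ := by
    intro h
    rw [h] at hab
    apply ha
    rw [hab]
    simp
  have h1 : Ideal.span {θ} = Ideal.span {((r : 𝓞 K) ^ 2)} * (I * b ^ 5) := by
    rw [← hθ', hab, ← Ideal.span_singleton_pow, ← hII]
    ring
  obtain ⟨θ₁, hθ1, hθ2⟩ := exists_div_aux θ ((r : 𝓞 K) ^ 2) (pow_ne_zero _ hr0) _ h1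
  obtain ⟨N, T, hN, hTr, hNT⟩ := UEI_data Q θ₁
  -- the norm
  have hNormI : Ideal.absNorm I = r := by
    rw [hI, hr]
    rfl
  have hNpos : 0 ≤ N := by nlinarith [sq_nonneg T, sq_nonneg (Q.Y θ₁)]
  have hNabs : (Ideal.absNorm (Ideal.span {θ₁}) : ℤ) = |N| := Q.absNorm_eq θ₁ N hN
  have hNval : N = (r : ℤ) * (z : ℤ) ^ 5 := by
    rw [hθ2, map_mul, map_pow, hNormI, hNb, abs_of_nonneg hNpos] at hNabs
    rw [← hNabs]
    push_cast
    rfl
  -- coprimality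
  have hcop : IsCoprime (Q.Y θ₁) ((r : ℤ) * z) := by
    rw [Int.isCoprime_iff_gcd_eq_one]
    by_contra hne
    obtain ⟨q, hq, hqd⟩ := Nat.exists_prime_and_dvd hne
    have hq1 : (q : ℤ) ∣ Q.Y θ₁ := (Int.natCast_dvd_natCast.2 hqd).trans (Int.gcd_dvd_left _ _)
    have hq2 : (q : ℤ) ∣ (r : ℤ) * z := (Int.natCast_dvd_natCast.2 hqd).trans (Int.gcd_dvd_right _ _)
    have hq3 : (q : ℤ) ∣ N := by
      rw [hNval]
      have hqp := Nat.prime_iff_prime_int.mp hq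
      rcases hqp.dvd_or_dvd hq2 with h | h
      · exact h.mul_right _
      · exact (dvd_pow h (by norm_num)).mul_left _
    have hq4 := Q.dvd_of_dvd q hq θ₁ N hN hq1 hq3
    have h5 : Ideal.span {(q : 𝓞 K)} ∣ I * b ^ 5 := by
      rw [← hθ2, Ideal.dvd_span_singleton]
      exact Ideal.mem_span_singleton.2 hq4
    have h6 : Ideal.span {(q : 𝓞 K)} ∣ I * Q.bar b ^ 5 := by
      have h7 := h96_bar_dvd Q h5
      rw [h96_bar_q, QF.bar_mul, QF.bar_pow, hbI] at h7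
      exact h7
    have h8 : b ^ 5 ⊔ Q.bar b ^ 5 = ⊤ := by
      have h9 : IsCoprime b (Q.bar b) := by
        rw [Ideal.isCoprime_iff_sup_eq]
        exact hbb
      exact Ideal.isCoprime_iff_sup_eq.1 (h9.pow)
    have h10 : Ideal.span {(q : 𝓞 K)} ∣ I := by
      have h11 : I = I * b ^ 5 ⊔ I * Q.bar b ^ 5 := by
        rw [← Ideal.mul_sup, h8, Ideal.mul_top]
      rw [h11, Ideal.dvd_iff_le]
      exact sup_le (Ideal.dvd_iff_le.1 h5) (Ideal.dvd_iff_le.1 h6)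
    apply hP q hq
    rw [hab]
    exact h10.mul_right _
  -- divisibility of the trace
  have hTI : (T : 𝓞 K) ∈ I := by
    have h2 : θ₁ ∈ I := by
      have h3 : θ₁ ∈ Ideal.span {θ₁} := Ideal.mem_span_singleton_self θ₁
      rw [hθ2] at h3
      have h3' : I * b ^ 5 ≤ I := Ideal.mul_le_left
      exact h3' h3
    have h4 : Q.cj θ₁ ∈ I := by
      have h5 : Q.cj θ₁ ∈ Q.bar I := Ideal.mem_map_of_mem Q.cj h2
      rwa [hbI] at h5
    rw [← hTr]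
    exact I.add_mem h2 h4
  have hTr2 : (r : ℤ) ∣ T ^ 2 := by
    have h2 : (T : 𝓞 K) * T ∈ I * I := Ideal.mul_mem_mul hTI hTI
    rw [hII, Ideal.mem_span_singleton] at h2
    have h3 : ((r : ℤ) : 𝓞 K) ∣ ((T ^ 2 : ℤ) : 𝓞 K) + ((0 : ℤ) : 𝓞 K) * Q.ω := by
      push_cast
      rw [zero_mul, add_zero, sq]
      exact h2
    have hrz : (r : ℤ) ≠ 0 := by omega
    exact ((Q.int_dvd_iff (r : ℤ) hrz (T ^ 2) 0).1 h3).1
  have hsqz : Squarefree (r : ℤ) := by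
    rw [Int.squarefree_natCast]
    exact hsq
  have hrT : (r : ℤ) ∣ T := (hsqz.dvd_pow_iff_dvd (by norm_num : (2 : ℕ) ≠ 0)).1 hTr2
  obtain ⟨X, hX⟩ := hrT
  have hrD : (r : ℤ) ∣ Q.D := by
    have h2 : (r : ℤ) ∣ Q.D * Q.Y θ₁ ^ 2 := by
      have h3 : Q.D * Q.Y θ₁ ^ 2 = T ^ 2 - 4 * N := by linarith
      rw [h3, hNval]
      exact dvd_sub hTr2 ⟨4 * (z : ℤ) ^ 5, by ring⟩
    have h4 : IsCoprime (r : ℤ) (Q.Y θ₁ ^ 2) := by
      have h5 : IsCoprime (Q.Y θ₁) (r : ℤ) := hcop.of_mul_right_left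
      exact h5.symm.pow_right
    exact h4.dvd_of_dvd_mul_right h2
  refine ⟨X, Q.Y θ₁, θ₁, ⟨hcop, hrD, ?_⟩, ?_, ?_, ?_⟩
  · have h2 : (r : ℤ) ^ 2 * X ^ 2 = T ^ 2 := by rw [hX]; ring
    rw [h2]
    rw [hNval] at hNT
    linarith
  · intro h0
    rw [h0, isCoprime_zero_left, Int.isUnit_iff] at hcop
    have h2 : (r : ℤ) * z = 1 := by
      rcases hcop with h | h
      · exact h
      · have : (0 : ℤ) ≤ (r : ℤ) * z := by positivity
        omega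
    have h3 : r * z = 1 := by exact_mod_cast h2
    rw [← hNa] at h3
    exact hT (Ideal.absNorm_eq_one_iff.1 h3)
  · have h2 := Q.sub_cj θ₁
    have h3 : (2 : 𝓞 K) * θ₁ = (θ₁ + Q.cj θ₁) + (θ₁ - Q.cj θ₁) := by ring
    rw [h3, hTr, h2, hX]
    push_cast
    ring
  · rw [hθ', hθ1]

end Pool.Agent.T5
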