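import Pool.Agent.helper8.T5.SpecU

/-!
# T5, block U: row ULP (lattice points in a disc)
-/

set_option autoImplicit false

namespace Pool.Agent.T5

open Finset NumberField Pool.Agent.helper3.FT Pool.Agent.helper47.RA

private theorem ULP_int (S : Finset ℤ) (J : ℝ) (hJ : 0 ≤ J) (h : ∀ s ∈ S, |(s : ℝ)| ≤ J) :
    (S.card : ℝ) ≤ 2 * J + 1 := by
  have h1 : S ⊆ Icc (-⌊J⌋) ⌊J⌋ := by
    intro s hs
    have h2 := abs_le.1 (h s hs)
    rw [mem_Icc]
    constructor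
    · have h3 : -s ≤ ⌊J⌋ := Int.le_floor.2 (by push_cast; linarith)
      omega
    · exact Int.le_floor.2 h2.2
  have h2 := Finset.card_le_card h1
  rw [Int.card_Icc] at h2
  have h3 : 0 ≤ ⌊J⌋ := Int.floor_nonneg.2 hJ
  have h4 : (S.card : ℤ) ≤ 2 * ⌊J⌋ + 1 := by
    have : ((⌊J⌋ + 1 - -⌊J⌋).toNat : ℤ) = ⌊J⌋ + 1 - -⌊J⌋ := Int.toNat_of_nonneg (by omega)
    have h5 : (S.card : ℤ) ≤ ((⌊J⌋ + 1 - -⌊J⌋).toNat : ℤ) := by exact_mod_cast h2
    rw [this] at h5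
    linarith
  have h5 : (S.card : ℝ) ≤ 2 * (⌊J⌋ : ℝ) + 1 := by exact_mod_cast h4
  have h6 := Int.floor_le J
  linarith

/-- norm of an element of an imaginary quadratic field -/
private theorem ULP_norm {K : Type} [Field K] [NumberField K] (Q : QF K) (hD : Q.D < 0) (x : 𝓞 K) :
    Q.v₁ x ^ 2 = ((Ideal.absNorm (Ideal.span {x}) : ℕ) : ℝ) := by
  rw [Q.hnorm, ← Q.himag hD, sq]

private theorem ULP_pos {K : Type} [Field K] [NumberField K] (Q : QF K) (hD : Q.D < 0) (x : 𝓞 K)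
    (hx : x ≠ 0) : 0 < Q.v₁ x := by
  have h1 := ULP_norm Q hD x
  have h2 : Ideal.absNorm (Ideal.span {x}) ≠ 0 := by
    intro h
    have h3 := Ideal.absNorm_eq_zero_iff.1 h
    exact hx (Ideal.span_singleton_eq_bot.1 h3)
  have h3 : (1 : ℝ) ≤ ((Ideal.absNorm (Ideal.span {x}) : ℕ) : ℝ) := by
    exact_mod_cast Nat.one_le_iff_ne_zero.2 h2
  rcases (Q.v₁_nonneg x).lt_or_eq with h4 | h4
  · exact h4
  · rw [← h4, zero_pow two_ne_zero] at h1
    linarith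

/-- a shortest vector -/
private theorem ULP_min {K : Type} [Field K] [NumberField K] (Q : QF K) (hD : Q.D < 0)
    (I : Ideal (𝓞 K)) (hI : I ≠ ⊥) : ∃ α ∈ I, α ≠ 0 ∧ ∀ x ∈ I, x ≠ 0 → Q.v₁ α ≤ Q.v₁ x := by
  classical
  obtain ⟨y, hy, hy0⟩ := Submodule.exists_mem_ne_zero_of_ne_bot hI
  have hex : ∃ n : ℕ, ∃ x ∈ I, x ≠ 0 ∧ Ideal.absNorm (Ideal.span {x}) = n := ⟨_, y, hy, hy0, rfl⟩
  obtain ⟨α, hα, hα0, hαn⟩ := Nat.find_spec hex
  refine ⟨α, hα, hα0, fun x hx hx0 => ?_⟩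
  have h1 : Nat.find hex ≤ Ideal.absNorm (Ideal.span {x}) := Nat.find_min' hex ⟨x, hx, hx0, rfl⟩
  have h2 : Q.v₁ α ^ 2 ≤ Q.v₁ x ^ 2 := by
    rw [ULP_norm Q hD, ULP_norm Q hD, hαn]
    exact_mod_cast h1
  exact (sq_le_sq₀ (Q.v₁_nonneg α) (Q.v₁_nonneg x)).1 h2

/-- parallel vectors are integral multiples of the shortest vector -/
private theorem ULP_par {K : Type} [Field K] [NumberField K] (Q : QF K) (hD : Q.D < 0)
    (I : Ideal (𝓞 K)) (α : 𝓞 K) (hα : α ∈ I) (hα0 : α ≠ 0)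
    (hmin : ∀ x ∈ I, x ≠ 0 → Q.v₁ α ≤ Q.v₁ x) (y : 𝓞 K) (hy : y ∈ I)
    (hY : Q.Y (y * Q.cj α) = 0) : ∃ q : ℤ, y = q * α := by
  obtain ⟨e, he⟩ := (Q.Y_eq_zero_iff _).1 hY
  obtain ⟨m, hm, hm2⟩ := Q.exists_norm α
  have hv := ULP_pos Q hD α hα0
  have hv2 : Q.v₁ α ^ 2 = |(m : ℝ)| := by
    rw [sq]
    have h1 : Q.v₁ α * Q.v₁ (Q.cj α) = |(m : ℝ)| := by rw [← Q.v₁_mul, hm, Q.v₁_int]
    rw [Q.v₁_cj, ← Q.himag hD] at h1
    exact h1
  have hm0 : m ≠ 0 := by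
    rintro rfl
    simp at hv2
    linarith
  have hmul : (m : 𝓞 K) * y = (e : 𝓞 K) * α := by
    rw [← hm, ← he]
    ring
  -- round `e / m`
  set q : ℤ := round ((e : ℝ) / m) with hq
  refine ⟨q, ?_⟩
  by_contra hne
  have hz : y - q * α ≠ 0 := sub_ne_zero.2 hne
  have hzI : y - q * α ∈ I := I.sub_mem hy (I.mul_mem_left _ hα)
  have h1 := hmin _ hzI hz
  have h2 : (m : 𝓞 K) * (y - q * α) = ((e - q * m : ℤ) : 𝓞 K) * α := by
    push_cast
    linear_combination hmul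
  have h3 : |(m : ℝ)| * Q.v₁ (y - q * α) = |((e - q * m : ℤ) : ℝ)| * Q.v₁ α := by
    rw [← Q.v₁_int, ← Q.v₁_int, ← Q.v₁_mul, ← Q.v₁_mul, h2]
  have h4 : |((e - q * m : ℤ) : ℝ)| ≤ |(m : ℝ)| / 2 := by
    have h5 := abs_sub_round ((e : ℝ) / m)
    have hmR : (m : ℝ) ≠ 0 := by exact_mod_cast hm0
    have h6 : ((e - q * m : ℤ) : ℝ) = ((e : ℝ) / m - q) * m := by
      push_cast
      field_simp
    rw [h6, abs_mul]
    have h7 := mul_le_mul_of_nonneg_right h5 (abs_nonneg (m : ℝ))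
    linarith
  have hmpos : 0 < |(m : ℝ)| := abs_pos.2 (by exact_mod_cast hm0)
  have h5 : |(m : ℝ)| * Q.v₁ (y - q * α) ≤ |(m : ℝ)| * (Q.v₁ α / 2) := by
    rw [h3]
    have := mul_le_mul_of_nonneg_right h4 hv.le
    linarith
  have h6 := le_of_mul_le_mul_left h5 hmpos
  linarith

theorem ULP : ULP_stmt := by
  classical
  intro K _ _ Q hD I hI B μ hB hμ hμm F hF
  obtain ⟨α, hα, hα0, hmin⟩ := ULP_min Q hD I hI
  have hv := ULP_pos Q hD α hα0
  set V : ℝ := Q.v₁ α with hV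
  have hN0 : Ideal.absNorm I ≠ 0 := fun h => hI (Ideal.absNorm_eq_zero_iff.1 h)
  have hNR : (1 : ℝ) ≤ (Ideal.absNorm I : ℝ) := by exact_mod_cast Nat.one_le_iff_ne_zero.2 hN0
  have hDR : (Q.D : ℝ) < 0 := by exact_mod_cast hD
  have hs : 0 < √(-(Q.D : ℝ)) := Real.sqrt_pos.2 (by linarith)
  have habs : |(Q.D : ℝ)| = -(Q.D : ℝ) := abs_of_neg hDR
  set s : ℝ := √(-(Q.D : ℝ)) with hsdef
  set n : ℝ := (Ideal.absNorm I : ℝ) with hn
  have hμV : μ ≤ V ^ 2 := hμm α hα hα0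
  -- Minkowski
  have hVmink : V ^ 2 ≤ 4 * s * n := by
    have hA : 0 < √(4 * s * n) := Real.sqrt_pos.2 (by positivity)
    obtain ⟨x, hx, hx0, hx1, -⟩ := Q.hmink I (Nat.pos_of_ne_zero hN0) (√(4 * s * n)) (√(4 * s * n)) hA hA
      (by rw [habs, Real.mul_self_sqrt (by positivity)]) (fun _ => rfl)
    have h1 := hmin x hx hx0
    have h2 : V ≤ √(4 * s * n) := h1.trans hx1
    calc V ^ 2 ≤ √(4 * s * n) ^ 2 := by gcongr
      _ = 4 * s * n := Real.sq_sqrt (by positivity)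
  -- coordinates
  have hdvd : ∀ x ∈ I, ∃ w : 𝓞 K, x * Q.cj α = ((Ideal.absNorm I : ℕ) : 𝓞 K) * w := by
    intro x hx
    have h1 : x * Q.cj α ∈ I * Q.bar I := Ideal.mul_mem_mul hx (Ideal.mem_map_of_mem Q.cj hα)
    rw [Q.mul_bar] at h1
    exact Ideal.mem_span_singleton.1 h1
  have hw : ∀ x : F, ∃ w : 𝓞 K, x.1 * Q.cj α = ((Ideal.absNorm I : ℕ) : 𝓞 K) * w := fun x =>
    hdvd x.1 (hF x.1 x.2).1
  choose w hw using hw
  let j : F → ℤ := fun x => Q.Y (w x)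
  have hYj : ∀ x : F, Q.Y (x.1 * Q.cj α) = (Ideal.absNorm I : ℤ) * j x := by
    intro x
    rw [hw x]
    have h1 : (((Ideal.absNorm I : ℕ) : 𝓞 K)) = (((Ideal.absNorm I : ℕ) : ℤ) : 𝓞 K) := by push_cast; rfl
    rw [h1, Q.Y_int_mul]
  have hvx : ∀ x : F, Q.v₁ x.1 ≤ √B := fun x => Real.le_sqrt_of_sq_le (hF x.1 x.2).2
  set J : ℝ := 2 * √B * V / (n * s) with hJ
  have hJ0 : 0 ≤ J := by positivity
  have hjb : ∀ x : F, |((j x : ℤ) : ℝ)| ≤ J := by
    intro x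
    have h1 := Q.Y_bound (x.1 * Q.cj α)
    rw [hYj x, Q.v₁_mul, Q.v₂_mul, Q.v₁_cj, Q.v₂_cj, ← Q.himag hD, ← Q.himag hD, habs] at h1
    push_cast at h1
    rw [abs_mul, abs_of_nonneg (by positivity : (0 : ℝ) ≤ ((Ideal.absNorm I : ℕ) : ℝ))] at h1
    rw [hJ, le_div_iff₀ (by positivity)]
    have h2 : Q.v₁ x.1 * V ≤ √B * V := mul_le_mul_of_nonneg_right (hvx x) hv.le
    have h3 : n * |((j x : ℤ) : ℝ)| * s ≤ Q.v₁ x.1 * V + Q.v₁ x.1 * V := h1
    calc |((j x : ℤ) : ℝ)| * (n * s) = n * |((j x : ℤ) : ℝ)| * s := by ring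
      _ ≤ 2 * (Q.v₁ x.1 * V) := by linarith
      _ ≤ 2 * √B * V := by linarith
  -- the fibres
  set G : ℝ := 4 * (√B / V) + 1 with hG
  have hG0 : 0 ≤ G := by positivity
  have hfib : ∀ c : ℤ, (((univ : Finset F).filter (fun x => j x = c)).card : ℝ) ≤ G := by
    intro c
    rcases ((univ : Finset F).filter (fun x => j x = c)).eq_empty_or_nonempty with h0 | ⟨x₀, hx₀⟩
    · rw [h0]
      simpa using hG0
    have hq : ∀ x : F, j x = c → ∃ q : ℤ, x.1 - x₀.1 = q * α := by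
      intro x hx
      apply ULP_par Q hD I α hα hα0 hmin (x.1 - x₀.1) (I.sub_mem (hF x.1 x.2).1 (hF x₀.1 x₀.2).1)
      rw [sub_mul, Q.Y_sub, hYj, hYj, hx, (mem_filter.1 hx₀).2, sub_self]
    choose! q hq using hq
    have hinj : Set.InjOn q (((univ : Finset F).filter (fun x => j x = c) : Finset F) : Set F) := by
      intro x hx y hy hxy
      have h1 := hq x (mem_filter.1 (mem_coe.1 hx)).2
      have h2 := hq y (mem_filter.1 (mem_coe.1 hy)).2
      rw [hxy, ← h2] at h1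
      exact Subtype.ext (sub_left_inj.1 h1)
    rw [← Finset.card_image_of_injOn hinj]
    have h1 := ULP_int (((univ : Finset F).filter (fun x => j x = c)).image q) (2 * (√B / V)) (by positivity) (by
      intro t ht
      obtain ⟨x, hx, rfl⟩ := mem_image.1 ht
      have h2 := hq x (mem_filter.1 hx).2
      have h3 : |((q x : ℤ) : ℝ)| * V = Q.v₁ (x.1 - x₀.1) := by
        rw [h2, Q.v₁_mul, Q.v₁_int]
      have h4 : Q.v₁ (x.1 - x₀.1) ≤ √B + √B := by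
        rw [sub_eq_add_neg]
        refine (Q.v₁_add _ _).trans ?_
        rw [Q.v₁_neg]
        exact add_le_add (hvx x) (hvx x₀)
      rw [mul_div_assoc', le_div_iff₀ hv, h3]
      linarith)
    rw [hG]
    linarith
  have hcard : (F.card : ℝ) ≤ G * ((univ.image j).card : ℝ) := by
    have h1 : F.card = ∑ c ∈ univ.image j, ((univ : Finset F).filter (fun x => j x = c)).card := by
      rw [← Fintype.card_coe, ← Finset.card_univ]
      exact Finset.card_eq_sum_card_image j univ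
    rw [h1]
    push_cast
    calc ∑ c ∈ univ.image j, (((univ : Finset F).filter (fun x => j x = c)).card : ℝ)
        ≤ ∑ _c ∈ univ.image j, G := Finset.sum_le_sum fun c _ => hfib c
      _ = G * ((univ.image j).card : ℝ) := by rw [Finset.sum_const, nsmul_eq_mul, mul_comm]
  have himg : ((univ.image j).card : ℝ) ≤ 2 * J + 1 := by
    apply ULP_int _ _ hJ0
    intro t ht
    obtain ⟨x, -, rfl⟩ := mem_image.1 ht
    exact hjb x
  have h1 : (F.card : ℝ) ≤ G * (2 * J + 1) := hcard.trans (mul_le_mul_of_nonneg_left himg hG0)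
  -- numbers
  have hsqB : √B * √B = B := Real.mul_self_sqrt hB
  have e1 : √B / V * J = 2 * (B / (n * s)) := by
    rw [hJ]
    field_simp
    rw [sq, hsqB]
  have e2 : J ≤ 8 * (√B / V) := by
    rw [hJ, div_le_iff₀ (by positivity)]
    have h2 : 8 * (√B / V) * (n * s) = 2 * √B * ((4 * s * n) / V) := by ring
    rw [h2]
    have h3 : V ≤ (4 * s * n) / V := by
      rw [le_div_iff₀ hv, ← sq]
      exact hVmink
    have h4 : 0 ≤ 2 * √B := by positivity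
    nlinarith
  have e3 : √B / V ≤ √(B / μ) := by
    rw [Real.sqrt_div hB]
    have h2 : √μ ≤ V := by
      rw [← Real.sqrt_sq hv.le]
      exact Real.sqrt_le_sqrt hμV
    exact div_le_div_of_nonneg_left (Real.sqrt_nonneg _) (Real.sqrt_pos.2 hμ) h2
  have e4 : 0 ≤ B / (n * s) := by positivity
  calc (F.card : ℝ) ≤ G * (2 * J + 1) := h1
    _ = 8 * (√B / V * J) + 4 * (√B / V) + 2 * J + 1 := by rw [hG]; ring
    _ ≤ 20 * (B / (n * s) + √(B / μ) + 1) := by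
      rw [e1]
      have h5 : 0 ≤ √B / V := by positivity
      linarith

end Pool.Agent.T5
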