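import Pool.Agent.helper8.T5.AsmU0
import Pool.Agent.helper8.T5.UEI
import Pool.Agent.helper8.T5.ULP

/-!
# T5 (MP_16912e_nt), block U: the results
-/

set_option autoImplicit false

namespace Pool.Agent.T5

/-- block U: the bound for all `N, Y` -/
theorem U_of (hBC : BC_stmt) : U_stmt := (AsmU0 (UEI UEA) ULP hBC).1

/-- block U: the exceptional ideals -/
theorem EXC_of (hBC : BC_stmt) : ∀ δ : ℝ, 0 < δ → δ ≤ 1 / 10 → EXC_stmt δ := (AsmU0 (UEI UEA) ULP hBC).2

end Pool.Agent.T5
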