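import Pool.Agent.helper8.T5.SpecU

/-!
# T5, block U: row UU
-/

set_option autoImplicit false

namespace Pool.Agent.T5

open Finset NumberField Pool.Agent.helper3.FT Pool.Agent.helper47.RA

private theorem UU_fin (K : Type) [Field K] [NumberField K] (V : ℝ) : (IA K V).Finite := by
  refine (Ideal.finite_setOf_absNorm_le (S := 𝓞 K) ⌊V⌋₊).subset ?_
  intro a ha
  obtain ⟨_, _, _, _, _, h⟩ := ha
  exact Nat.le_floor h

/-- The dyadic decomposition of one term. -/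
private theorem UU_term (K : Type) [Field K] [NumberField K] (a : Ideal (𝓞 K)) (h1 : a ≠ ⊥) (h2 : Prim a)
    (h3 : (a ^ 5).IsPrincipal) (h4 : ¬ a.IsPrincipal) (Y M : ℝ) (J : ℕ) (hY : 0 < Y) (hM : 0 < M) (hJ : M < 2 ^ J) :
    ∃ i ∈ range (J + 1), √(Y / Ideal.absNorm a) ≤ √(2 * Y / M) ∨
      ((2 : ℝ) ^ i ≤ M ∧ a ∈ IA K (2 ^ i) ∧ √(Y / Ideal.absNorm a) ≤ √(2 * Y / 2 ^ i)) := by
  have hpos : 0 < Ideal.absNorm a := by
    rw [Nat.pos_iff_ne_zero]
    intro h
    exact h1 (Ideal.absNorm_eq_zero_iff.mp h)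
  have hR : (0 : ℝ) < Ideal.absNorm a := by exact_mod_cast hpos
  rcases le_or_gt (M / 2) (Ideal.absNorm a : ℝ) with h | h
  · refine ⟨0, mem_range.mpr (by omega), Or.inl ?_⟩
    apply Real.sqrt_le_sqrt
    rw [div_le_div_iff₀ hR hM]
    nlinarith
  · obtain ⟨i, hi⟩ : ∃ i, i = Nat.clog 2 (Ideal.absNorm a) := ⟨_, rfl⟩
    have hup : Ideal.absNorm a ≤ 2 ^ i := by rw [hi]; exact Nat.le_pow_clog (by norm_num) _
    have hlow : 2 ^ i < 2 * Ideal.absNorm a := by
      rcases Nat.eq_or_lt_of_le (Nat.succ_le_of_lt hpos) with h5 | h5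
      · have h6 : Ideal.absNorm a = 1 := by omega
        have h7 : i = 0 := by rw [hi, h6]; simp
        rw [h7, h6]; norm_num
      · have h6 : 1 < Ideal.absNorm a := by omega
        have h7 := Nat.pow_pred_clog_lt_self (b := 2) (by norm_num) h6
        rw [← hi] at h7
        have h8 : 1 ≤ i := by
          rw [hi]
          exact Nat.clog_pos (by norm_num) h6
        obtain ⟨j, rfl⟩ := Nat.exists_eq_add_of_le' h8
        simp only [Nat.pred_succ, Nat.succ_eq_add_one, Nat.pred_eq_sub_one, Nat.add_sub_cancel] at h7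
        rw [pow_succ]
        omega
    have hupR : (Ideal.absNorm a : ℝ) ≤ 2 ^ i := by exact_mod_cast hup
    have hlowR : (2 : ℝ) ^ i < 2 * Ideal.absNorm a := by exact_mod_cast hlow
    have hiM : (2 : ℝ) ^ i ≤ M := by linarith
    refine ⟨i, ?_, Or.inr ⟨hiM, ⟨h1, h2, h3, h4, by linarith, hupR⟩, ?_⟩⟩
    · rw [mem_range]
      have h9 : (2 : ℝ) ^ i < 2 ^ J := lt_of_le_of_lt hiM hJ
      have := (pow_lt_pow_iff_right₀ (by norm_num : (1 : ℝ) < 2)).mp h9
      omega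
    · apply Real.sqrt_le_sqrt
      rw [div_le_div_iff₀ hR (by positivity)]
      nlinarith

open Classical in
private theorem UU_one (K : Type) [Field K] [NumberField K] (Q : QF K) (Mn : Finset (Ideal (𝓞 K)))
    (hMn : ∀ a ∈ Mn, a ≠ ⊥ ∧ Prim a ∧ (a ^ 5).IsPrincipal ∧ ¬ a.IsPrincipal ∧
      (Ideal.absNorm a : ℝ) ≤ 4 * √(-(Q.D : ℝ)))
    (N Y M : ℝ) (J : ℕ) (hN : 0 < N) (hY : 0 < Y) (hM : 0 < M) (hJ : M < 2 ^ J) (hD : N / 2 < -(Q.D : ℝ)) :
    ∑ a ∈ Mn, 20 * (Y / √(-(Q.D : ℝ)) + √(Y / Ideal.absNorm a) + 1) ≤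
      20 * ((2 * Y / √N + √(2 * Y / M) + 1) * Mn.card +
        ∑ i ∈ range (J + 1), (if (2 : ℝ) ^ i ≤ M then √(2 * Y / 2 ^ i) * ((IA K (2 ^ i)).ncard : ℝ) else 0)) := by
  have hsN : 0 < √N := Real.sqrt_pos.mpr hN
  have h1 : Y / √(-(Q.D : ℝ)) ≤ 2 * Y / √N := by
    have h2 : √N ≤ 2 * √(-(Q.D : ℝ)) := by
      rw [show (2 : ℝ) = √4 by rw [show (4 : ℝ) = 2 ^ 2 by norm_num]; simp, ← Real.sqrt_mul (by norm_num)]
      apply Real.sqrt_le_sqrt
      linarith
    have h3 : 0 < √(-(Q.D : ℝ)) := Real.sqrt_pos.mpr (by linarith)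
    rw [div_le_div_iff₀ h3 hsN]
    nlinarith
  have hterm : ∀ a ∈ Mn, 20 * (Y / √(-(Q.D : ℝ)) + √(Y / Ideal.absNorm a) + 1) ≤
      20 * ((2 * Y / √N + √(2 * Y / M) + 1) +
        ∑ i ∈ range (J + 1), (if (2 : ℝ) ^ i ≤ M ∧ a ∈ IA K (2 ^ i) then √(2 * Y / 2 ^ i) else 0)) := by
    intro a ha
    obtain ⟨g1, g2, g3, g4, _⟩ := hMn a ha
    have hnn : ∀ i ∈ range (J + 1), (0 : ℝ) ≤ (if (2 : ℝ) ^ i ≤ M ∧ a ∈ IA K (2 ^ i) then √(2 * Y / 2 ^ i) else 0) := by
      intro i _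
      split_ifs
      · exact Real.sqrt_nonneg _
      · exact le_rfl
    have h0 := Finset.sum_nonneg hnn
    have hs0 := Real.sqrt_nonneg (2 * Y / M)
    obtain ⟨i, hi, h | ⟨h5, h6, h7⟩⟩ := UU_term K a g1 g2 g3 g4 Y M J hY hM hJ
    · linarith
    · have h8 := Finset.single_le_sum hnn hi
      rw [if_pos ⟨h5, h6⟩] at h8
      linarith
  refine (Finset.sum_le_sum hterm).trans ?_
  rw [← Finset.mul_sum, Finset.sum_add_distrib, Finset.sum_const, nsmul_eq_mul, Finset.sum_comm]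
  have h9 : ∀ i ∈ range (J + 1), ∑ a ∈ Mn, (if (2 : ℝ) ^ i ≤ M ∧ a ∈ IA K (2 ^ i) then √(2 * Y / 2 ^ i) else 0) ≤
      (if (2 : ℝ) ^ i ≤ M then √(2 * Y / 2 ^ i) * ((IA K (2 ^ i)).ncard : ℝ) else 0) := by
    intro i _
    by_cases hi : (2 : ℝ) ^ i ≤ M
    · rw [if_pos hi]
      simp only [hi, true_and]
      rw [← Finset.sum_filter, Finset.sum_const, nsmul_eq_mul, mul_comm]
      apply mul_le_mul_of_nonneg_left _ (Real.sqrt_nonneg _)
      have h10 : (Mn.filter fun a => a ∈ IA K (2 ^ i)).card ≤ (IA K (2 ^ i)).ncard := by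
        rw [← Set.ncard_coe_finset]
        apply Set.ncard_le_ncard _ (UU_fin K _)
        intro a ha
        exact (Finset.mem_filter.mp (Finset.mem_coe.mp ha)).2
      exact_mod_cast h10
    · rw [if_neg hi]
      apply le_of_eq
      apply Finset.sum_eq_zero
      intro a _
      rw [if_neg (fun h => hi h.1)]
  have h11 := Finset.sum_le_sum h9
  linarith

theorem UU (hUU1 : UU1_stmt) (hUCM : UCM_stmt) (hUFT : UFT_stmt) : UU_stmt := by
  classical
  intro ε hε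
  obtain ⟨δ, hδ⟩ : ∃ δ, δ = min (ε / 8) (1 / 10) := ⟨_, rfl⟩
  have hδ0 : 0 < δ := by rw [hδ]; exact lt_min (by linarith) (by norm_num)
  have hδ1 : δ ≤ 1 / 10 := by rw [hδ]; exact min_le_right _ _
  have hδε : 8 * δ ≤ ε := by
    have : δ ≤ ε / 8 := by rw [hδ]; exact min_le_left _ _
    linarith
  obtain ⟨C1, hC1, H1⟩ := hUU1 δ hδ0 hδ1 δ hδ0
  obtain ⟨C2, hC2, H2⟩ := hUFT δ hδ0
  have hδinv : 0 < 1 / δ := by positivity
  refine ⟨20 * (5 * C2 + (6 + 6 / δ) * C1), ?_, ?_⟩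
  · have : 0 ≤ 6 / δ := by positivity
    nlinarith [mul_nonneg this (by linarith : (0 : ℝ) ≤ C1)]
  intro N Y hN hY s Φ hs
  have hN0 : 0 < N := by linarith
  have hsN : 0 < √N := Real.sqrt_pos.mpr hN0
  have hCbig : C1 ≤ 20 * (5 * C2 + (6 + 6 / δ) * C1) := by
    have : 0 ≤ 6 / δ := by positivity
    nlinarith [mul_nonneg this (by linarith : (0 : ℝ) ≤ C1)]
  rcases le_or_gt Y (N ^ (1 / 2 - δ)) with hYM | hYM
  · refine (H1 N Y hN hY hYM s Φ hs).trans ?_
    have h1 : N ^ δ ≤ N ^ ε := Real.rpow_le_rpow_of_exponent_le hN (by linarith)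
    have h2 : 0 ≤ Y * √N := by positivity
    apply mul_le_mul_of_nonneg_right _ h2
    exact mul_le_mul hCbig h1 (by positivity) (by linarith)
  · obtain ⟨M, hM⟩ : ∃ M, M = N ^ (1 / 2 - δ) := ⟨_, rfl⟩
    rw [← hM] at hYM
    have hM0 : 0 < M := by rw [hM]; positivity
    have hMN : M ≤ N := by
      rw [hM]
      calc N ^ (1 / 2 - δ) ≤ N ^ (1 : ℝ) := Real.rpow_le_rpow_of_exponent_le hN (by linarith)
        _ = N := Real.rpow_one N
    obtain ⟨J, hJ⟩ : ∃ J : ℕ, J = ⌊Real.logb 2 N⌋₊ + 1 := ⟨_, rfl⟩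
    have hlog0 : 0 ≤ Real.logb 2 N := Real.logb_nonneg (by norm_num) hN
    have hJ1 : N < 2 ^ J := by
      have h1 : Real.logb 2 N < J := by
        rw [hJ]; push_cast; exact Nat.lt_floor_add_one _
      rw [← Real.rpow_natCast, ← Real.logb_lt_iff_lt_rpow (by norm_num) hN0]
      exact h1
    have hJ2 : ((J : ℝ) + 1) ≤ (3 + 3 / δ) * N ^ δ := by
      have h1 : (J : ℝ) ≤ Real.logb 2 N + 1 := by
        rw [hJ]; push_cast
        have := Nat.floor_le hlog0
        linarith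
      have h2 : Real.logb 2 N ≤ 3 / δ * N ^ δ := by
        have h3 : Real.log N ≤ N ^ δ / δ := Real.log_le_rpow_div hN0.le hδ0
        have h4 : (1 : ℝ) / 2 < Real.log 2 := by
          have := Real.log_two_gt_d9
          linarith
        rw [Real.logb, div_le_iff₀ (by linarith)]
        have h5 : 0 ≤ N ^ δ / δ := by positivity
        have h6 : 3 / δ * N ^ δ * Real.log 2 = 3 * Real.log 2 * (N ^ δ / δ) := by ring
        rw [h6]
        nlinarith
      have h7 : 1 ≤ N ^ δ := Real.one_le_rpow hN hδ0.le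
      nlinarith
    have hDneg : ∀ D : s, (Φ D).Q.D < 0 ∧ N / 2 < -((Φ D).Q.D : ℝ) := by
      intro D
      have h1 := (hs D.1 D.2).1
      rw [(Φ D).hD]
      refine ⟨?_, h1⟩
      have h2 : (D.1 : ℝ) < 0 := by linarith
      exact_mod_cast h2
    choose Mn hMn1 hMn2 hMn3 using fun D : s => hUCM (Φ D).K (Φ D).Q (hDneg D).1
    have hA : ∀ D : s, ((IA (Φ D).K Y).ncard : ℝ) ≤
        20 * ((2 * Y / √N + √(2 * Y / M) + 1) * (Mn D).card +
        ∑ i ∈ range (J + 1), (if (2 : ℝ) ^ i ≤ M then √(2 * Y / 2 ^ i) * ((IA (Φ D).K (2 ^ i)).ncard : ℝ) else 0)) := by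
      intro D
      refine (hMn3 D Y hY).trans ?_
      exact UU_one (Φ D).K (Φ D).Q (Mn D) (hMn2 D) N Y M J hN0 (by linarith) hM0 (by linarith) (hDneg D).2
    refine (Finset.sum_le_sum fun D _ => hA D).trans ?_
    rw [← Finset.mul_sum, Finset.sum_add_distrib, ← Finset.mul_sum, Finset.sum_comm]
    have hT : ∑ D : s, ((Mn D).card : ℝ) ≤ C2 * N ^ (1 + δ) := by
      refine le_trans (Finset.sum_le_sum fun D _ => ?_) (H2 N hN s Φ hs)
      exact_mod_cast hMn1 D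
    have hNδ : 1 ≤ N ^ δ := Real.one_le_rpow hN hδ0.le
    have hN2 : N ^ δ ≤ N ^ (2 * δ) := Real.rpow_le_rpow_of_exponent_le hN (by linarith)
    have hsq : N ^ (1 / 2 : ℝ) = √N := (Real.sqrt_eq_rpow N).symm
    -- the sum over the dyadic ranges
    have hB : ∑ i ∈ range (J + 1), ∑ D : s, (if (2 : ℝ) ^ i ≤ M then √(2 * Y / 2 ^ i) * ((IA (Φ D).K (2 ^ i)).ncard : ℝ) else 0)
        ≤ (3 + 3 / δ) * N ^ δ * (2 * C1 * N ^ δ * (Y * √N)) := by
      have h1 : ∀ i ∈ range (J + 1), ∑ D : s, (if (2 : ℝ) ^ i ≤ M then √(2 * Y / 2 ^ i) * ((IA (Φ D).K (2 ^ i)).ncard : ℝ) else 0)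
          ≤ 2 * C1 * N ^ δ * (Y * √N) := by
        intro i _
        by_cases hi : (2 : ℝ) ^ i ≤ M
        · simp only [hi, if_true]
          rw [← Finset.mul_sum]
          have h2 := H1 N (2 ^ i) hN (one_le_pow₀ (by norm_num)) (by rw [← hM]; exact hi) s Φ hs
          have h3 : √(2 * Y / 2 ^ i) * (2 : ℝ) ^ i ≤ 2 * Y := by
            have h4 : √(2 * Y / 2 ^ i) * (2 : ℝ) ^ i = √(2 * Y * 2 ^ i) := by
              have h5 : (0 : ℝ) < 2 ^ i := by positivity
              rw [← Real.sqrt_sq h5.le, ← Real.sqrt_mul (by positivity)]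
              congr 1
              rw [Real.sqrt_sq h5.le]
              field_simp
            rw [h4]
            apply Real.sqrt_le_iff.mpr
            constructor
            · positivity
            · nlinarith
          calc √(2 * Y / 2 ^ i) * ∑ D : s, ((IA (Φ D).K (2 ^ i)).ncard : ℝ)
              ≤ √(2 * Y / 2 ^ i) * (C1 * N ^ δ * (2 ^ i * √N)) := mul_le_mul_of_nonneg_left h2 (Real.sqrt_nonneg _)
            _ = (√(2 * Y / 2 ^ i) * 2 ^ i) * (C1 * N ^ δ * √N) := by ring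
            _ ≤ 2 * Y * (C1 * N ^ δ * √N) := mul_le_mul_of_nonneg_right h3 (by positivity)
            _ = 2 * C1 * N ^ δ * (Y * √N) := by ring
        · simp only [hi, if_false]
          rw [Finset.sum_const_zero]
          positivity
      refine (Finset.sum_le_sum h1).trans ?_
      rw [Finset.sum_const, card_range, nsmul_eq_mul]
      push_cast
      exact mul_le_mul_of_nonneg_right hJ2 (by positivity)
    -- the other terms
    have hMinv : N ^ (1 + δ) * (Y / M) = N ^ (2 * δ) * (Y * √N) := by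
      have h1 : N ^ (1 + δ) = N ^ (2 * δ) * (√N * M) := by
        rw [hM, ← hsq, ← Real.rpow_add hN0, ← Real.rpow_add hN0]
        congr 1
        ring
      rw [h1]
      field_simp
    have hYM1 : 1 ≤ Y / M := by rw [le_div_iff₀ hM0]; linarith
    have hroot : √(2 * Y / M) ≤ 2 * (Y / M) := by
      apply Real.sqrt_le_iff.mpr
      constructor
      · positivity
      · have : 2 * Y / M = 2 * (Y / M) := by ring
        rw [this]
        nlinarith
    have hC : (2 * Y / √N + √(2 * Y / M) + 1) * ∑ D : s, ((Mn D).card : ℝ) ≤ 5 * C2 * N ^ (2 * δ) * (Y * √N) := by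
      have h0 : 0 ≤ 2 * Y / √N + √(2 * Y / M) + 1 := by positivity
      have h1 : (2 * Y / √N) * (C2 * N ^ (1 + δ)) ≤ 2 * C2 * N ^ (2 * δ) * (Y * √N) := by
        have h2 : N ^ (1 + δ) = N ^ δ * (√N * √N) := by
          rw [Real.mul_self_sqrt hN0.le, Real.rpow_add hN0, Real.rpow_one]
          ring
        rw [h2]
        have h3 : 2 * Y / √N * (C2 * (N ^ δ * (√N * √N))) = 2 * C2 * N ^ δ * (Y * √N) := by
          field_simp
        rw [h3]
        apply mul_le_mul_of_nonneg_right _ (by positivity)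
        apply mul_le_mul_of_nonneg_left hN2 (by linarith)
      calc (2 * Y / √N + √(2 * Y / M) + 1) * ∑ D : s, ((Mn D).card : ℝ)
          ≤ (2 * Y / √N + √(2 * Y / M) + 1) * (C2 * N ^ (1 + δ)) := mul_le_mul_of_nonneg_left hT h0
        _ = (2 * Y / √N) * (C2 * N ^ (1 + δ)) + (√(2 * Y / M) + 1) * (C2 * N ^ (1 + δ)) := by ring
        _ ≤ 2 * C2 * N ^ (2 * δ) * (Y * √N) + (3 * (Y / M)) * (C2 * N ^ (1 + δ)) := by
            apply add_le_add h1
            apply mul_le_mul_of_nonneg_right _ (by positivity)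
            linarith
        _ = 2 * C2 * N ^ (2 * δ) * (Y * √N) + 3 * C2 * (N ^ (1 + δ) * (Y / M)) := by ring
        _ = 5 * C2 * N ^ (2 * δ) * (Y * √N) := by rw [hMinv]; ring
    have hN22 : N ^ δ * N ^ δ = N ^ (2 * δ) := by
      rw [← Real.rpow_add hN0]; congr 1; ring
    have hNε : N ^ (2 * δ) ≤ N ^ ε := Real.rpow_le_rpow_of_exponent_le hN (by linarith)
    calc 20 * ((2 * Y / √N + √(2 * Y / M) + 1) * ∑ D : s, ((Mn D).card : ℝ) +
          ∑ i ∈ range (J + 1), ∑ D : s, (if (2 : ℝ) ^ i ≤ M then √(2 * Y / 2 ^ i) * ((IA (Φ D).K (2 ^ i)).ncard : ℝ) else 0))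
        ≤ 20 * (5 * C2 * N ^ (2 * δ) * (Y * √N) + (3 + 3 / δ) * N ^ δ * (2 * C1 * N ^ δ * (Y * √N))) := by
          apply mul_le_mul_of_nonneg_left (add_le_add hC hB) (by norm_num)
      _ = 20 * (5 * C2 + (6 + 6 / δ) * C1) * N ^ (2 * δ) * (Y * √N) := by rw [← hN22]; ring
      _ ≤ 20 * (5 * C2 + (6 + 6 / δ) * C1) * N ^ ε * (Y * √N) := by
          apply mul_le_mul_of_nonneg_right _ (by positivity)
          apply mul_le_mul_of_nonneg_left hNε (by positivity)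

end Pool.Agent.T5
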