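import Pool.Agent.helper68.T5.UBC
import Pool.Agent.helper22.T5.UCM
import Pool.Agent.helper25.T5.UE
import Pool.Agent.helper78.T5.UE1
import Pool.Agent.helper65.T5.UEA
import Pool.Agent.helper74.T5.UEC
import Pool.Agent.helper57.T5.UEL
import Pool.Agent.helper65.T5.UFE
import Pool.Agent.helper1.T5.UFT
import Pool.Agent.helper96.T5.UFU
import Pool.Agent.helper49.T5.UFX
import Pool.Agent.helper71.T5.UIC
import Pool.Agent.helper57.T5.UIV
import Pool.Agent.helper29.T5.UM
import Pool.Agent.helper55.T5.UMK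
import Pool.Agent.helper96.T5.UMN
import Pool.Agent.helper1.T5.USM
import Pool.Agent.helper52.T5.USQ
import Pool.Agent.helper35.T5.UTP
import Pool.Agent.helper8.T5.UU
import Pool.Agent.helper9.T5.UU1
import Pool.Agent.helper57.T5.UXR
import Pool.Agent.helper1.T5.UZ1
import Pool.Agent.helper1.T5.UZ2
import Pool.Agent.helper44.T5.UZC

/-!
# T5 (MP_16912e_nt), block U: the assembly
-/

set_option autoImplicit false

namespace Pool.Agent.T5

/-- block U from `BC_stmt` -/
theorem AsmU0 (hUEI : UEI_stmt) (hULP : ULP_stmt) (hBC : BC_stmt) :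
    U_stmt ∧ ∀ δ : ℝ, 0 < δ → δ ≤ 1 / 10 → EXC_stmt δ := by
  have h2 := UEL (UXR (UIV USQ))
  have h4 := UEC UEA hUEI h2
  have h5 := UE1 h4 UEA USM
  have h6 := UZC UEA
  have h7 := UZ1 h4 UEA USM
  have h8 := UZ2 h4 UEA h6 USM
  have h9 := UMN UTP (UBC hBC)
  have h10 := UM UFX h6 h7 h8 h9
  have h11 := UU (UU1 h5 h10 UMK) (UCM (UIC hULP)) UFT
  exact ⟨UFU h11, UFE (UE h10)⟩

end Pool.Agent.T5
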