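import Pool.Agent.helper8.T5.SpecU

set_option autoImplicit false

namespace Pool.Agent.T5

/-- type check of the assembly of block U -/
theorem ChkU (USQ : USQ_stmt) (UIV : USQ_stmt → UIV_stmt) (UXR : UIV_stmt → UXR_stmt) (UEL : UXR_stmt → UEL_stmt) (USM : USM_stmt) (UEA : UEA_stmt)
    (UEI : UEA_stmt → UEI_stmt) (UEC : UEA_stmt → UEI_stmt → UEL_stmt → UEC_stmt) (UE1 : UEC_stmt → UEA_stmt → USM_stmt → UE1_stmt) (UFX : UFX_stmt) (UMK : UMK_stmt)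
    (UZC : UEA_stmt → UZC_stmt) (UZ1 : UEC_stmt → UEA_stmt → USM_stmt → UZ1_stmt) (UZ2 : UEC_stmt → UEA_stmt → UZC_stmt → USM_stmt → UZ2_stmt)
    (UBC : BC_stmt → BCU_stmt) (UTP : UTP_stmt) (UMN : UTP_stmt → BCU_stmt → UMN_stmt) (UM : UFX_stmt → UZC_stmt → UZ1_stmt → UZ2_stmt → UMN_stmt → UM_stmt)
    (UE : UM_stmt → UE_stmt) (ULP : ULP_stmt) (UIC : ULP_stmt → UIC_stmt) (UCM : UIC_stmt → UCM_stmt) (UU1 : UE1_stmt → UM_stmt → UMK_stmt → UU1_stmt) (UFT : UFT_stmt)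
    (UU : UU1_stmt → UCM_stmt → UFT_stmt → UU_stmt) (UFU : UU_stmt → UFU_stmt) (UFE : UE_stmt → UFE_stmt) (hBC : BC_stmt) :
    U_stmt ∧ ∀ δ : ℝ, 0 < δ → δ ≤ 1 / 10 → EXC_stmt δ := by
  have h1 := UIV USQ
  have h2 := UEL (UXR h1)
  have h3 := UEI UEA
  have h4 := UEC UEA h3 h2
  have h5 := UE1 h4 UEA USM
  have h6 := UZC UEA
  have h7 := UZ1 h4 UEA USM
  have h8 := UZ2 h4 UEA h6 USM
  have h9 := UMN UTP (UBC hBC)
  have h10 := UM UFX h6 h7 h8 h9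
  have h11 := UU (UU1 h5 h10 UMK) (UCM (UIC ULP)) UFT
  exact ⟨UFU h11, UFE (UE h10)⟩

end Pool.Agent.T5
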